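import Mathlib

set_option autoImplicit false
set_option linter.unusedSectionVars false

/-!
# Words with `p(n) ≤ n + C`: basic counting
-/

namespace Pool.Agent.TH796.Fin

open Set

variable {α : Type}

/-- the block of length `m` at `i` -/
def bl (w : ℕ → α) (m i : ℕ) : Fin m → α := fun j => w (i + j)

/-- the number of blocks of length `m` at the positions in `A` -/
noncomputable def cnt (w : ℕ → α) (A : Set ℕ) (m : ℕ) : ℕ := (bl w m '' A).ncard

lemma ncard_lt_of {X Y : Type} (f : X → Y) {S : Set X} (hS : S.Finite) {x y : X} (hx : x ∈ S)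
    (hy : y ∈ S) (hxy : x ≠ y) (hf : f x = f y) : (f '' S).ncard + 1 ≤ S.ncard := by
  have h1 : f '' S = f '' (S \ {x}) := by
    apply Subset.antisymm
    · rintro _ ⟨z, hz, rfl⟩
      by_cases hzx : z = x
      · subst hzx
        exact ⟨y, ⟨hy, fun h => hxy h.symm⟩, hf.symm⟩
      · exact ⟨z, ⟨hz, hzx⟩, rfl⟩
    · exact image_mono diff_subset
  have h2 := ncard_image_le (f := f) (hS.diff (t := {x}))
  have h3 := ncard_diff_singleton_add_one hx hS
  rw [h1]
  omega

lemma ncard_uniq {X Y : Type} (f : X → Y) {S : Set X} (hS : S.Finite)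
    (hc : S.ncard ≤ (f '' S).ncard + 1) {x y x' y' : X} (hx : x ∈ S) (hy : y ∈ S) (hxy : x ≠ y)
    (hf : f x = f y) (hx' : x' ∈ S) (hy' : y' ∈ S) (hxy' : x' ≠ y') (hf' : f x' = f y') :
    (x' = x ∧ y' = y) ∨ (x' = y ∧ y' = x) := by
  have key : ∀ {x y : X}, x ∈ S → y ∈ S → x ≠ y → f x = f y → x' = x ∨ y' = x := by
    intro x y hx hy hxy hf
    by_contra hcon
    push Not at hcon
    have h1 : f '' S = f '' (S \ {x}) := by
      apply Subset.antisymm
      · rintro _ ⟨z, hz, rfl⟩
        by_cases hzx : z = x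
        · subst hzx
          exact ⟨y, ⟨hy, fun h => hxy h.symm⟩, hf.symm⟩
        · exact ⟨z, ⟨hz, hzx⟩, rfl⟩
      · exact image_mono diff_subset
    have h2 := ncard_lt_of f (hS.diff (t := {x})) (⟨hx', hcon.1⟩ : x' ∈ S \ {x})
      (⟨hy', hcon.2⟩ : y' ∈ S \ {x}) hxy' hf'
    have h3 := ncard_diff_singleton_add_one hx hS
    rw [← h1] at h2
    omega
  rcases key hx hy hxy hf with h1 | h1
  · rcases key hy hx hxy.symm hf.symm with h2 | h2
    · exact absurd (h1.symm.trans h2) hxy
    · exact Or.inl ⟨h1, h2⟩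
  · rcases key hy hx hxy.symm hf.symm with h2 | h2
    · exact Or.inr ⟨h2, h1⟩
    · exact absurd (h1.symm.trans h2) hxy

/-- restriction -/
def rs {m : ℕ} (u : Fin (m + 1) → α) : Fin m → α := fun j => u j.castSucc

lemma rs_bl (w : ℕ → α) (m i : ℕ) : rs (bl w (m + 1) i) = bl w m i := rfl

lemma rs_image (w : ℕ → α) (A : Set ℕ) (m : ℕ) : rs '' (bl w (m + 1) '' A) = bl w m '' A := by
  rw [image_image]
  rfl

lemma bl_succ {w : ℕ → α} {m i j : ℕ} :
    bl w (m + 1) i = bl w (m + 1) j ↔ bl w m i = bl w m j ∧ w (i + m) = w (j + m) := by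
  constructor
  · intro h
    exact ⟨congrArg rs h, congrFun h (Fin.last m)⟩
  · rintro ⟨h1, h2⟩
    funext s
    refine Fin.lastCases h2 (fun s => ?_) s
    exact congrFun h1 s

variable [Finite α]

lemma cnt_mono (w : ℕ → α) (A : Set ℕ) : Monotone (cnt w A) := by
  refine monotone_nat_of_le_succ fun m => ?_
  unfold cnt
  rw [← rs_image]
  exact ncard_image_le (toFinite _)

lemma cnt_succ {w : ℕ → α} {A : Set ℕ} {m i j : ℕ} (hi : i ∈ A) (hj : j ∈ A)
    (h : bl w m i = bl w m j) (hne : w (i + m) ≠ w (j + m)) : cnt w A m + 1 ≤ cnt w A (m + 1) := by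
  unfold cnt
  rw [← rs_image]
  exact ncard_lt_of rs (toFinite _) (mem_image_of_mem _ hi) (mem_image_of_mem _ hj)
    (fun h' => hne (bl_succ.1 h').2) h

lemma uniq {w : ℕ → α} {m : ℕ} (hc : cnt w univ (m + 1) ≤ cnt w univ m + 1) {i j i' j' : ℕ}
    (h1 : bl w m i = bl w m j) (h2 : w (i + m) ≠ w (j + m)) (h3 : bl w m i' = bl w m j')
    (h4 : w (i' + m) ≠ w (j' + m)) :
    (bl w (m + 1) i' = bl w (m + 1) i ∧ bl w (m + 1) j' = bl w (m + 1) j) ∨
      (bl w (m + 1) i' = bl w (m + 1) j ∧ bl w (m + 1) j' = bl w (m + 1) i) := by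
  unfold cnt at hc
  rw [← rs_image w univ m] at hc
  exact ncard_uniq rs (toFinite _) hc (mem_image_of_mem _ (mem_univ i))
    (mem_image_of_mem _ (mem_univ j)) (fun h' => h2 (bl_succ.1 h').2) h1
    (mem_image_of_mem _ (mem_univ i')) (mem_image_of_mem _ (mem_univ j'))
    (fun h' => h4 (bl_succ.1 h').2) h3

/-- not eventually periodic -/
def NP (w : ℕ → α) : Prop := ∀ N p : ℕ, 0 < p → ∃ n ≥ N, w (n + p) ≠ w n

/-- two equal blocks followed by different letters, beyond any place -/
lemma branch {w : ℕ → α} (hw : NP w) (m N : ℕ) :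
    ∃ i ≥ N, ∃ j ≥ N, bl w m i = bl w m j ∧ w (i + m) ≠ w (j + m) := by
  obtain ⟨i, j, hij, h⟩ : ∃ i j : ℕ, i ≠ j ∧ bl w m (N + i) = bl w m (N + j) := by
    obtain ⟨i, j, hij, h⟩ := Finite.exists_ne_map_eq_of_infinite fun i => bl w m (N + i)
    exact ⟨i, j, hij, h⟩
  wlog hlt : i < j generalizing i j
  · exact this j i hij.symm h.symm (by omega)
  by_contra hcon
  push Not at hcon
  have h1 : ∀ s, bl w m (N + i + s) = bl w m (N + j + s) := by
    intro s
    induction s with
    | zero => exact h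
    | succ s ih =>
      have h2 := hcon (N + i + s) (by omega) (N + j + s) (by omega) ih
      have h3 := bl_succ.2 ⟨ih, h2⟩
      funext t
      have h4 := congrFun h3 t.succ
      unfold bl at h4 ⊢
      rw [Fin.val_succ] at h4
      rw [show N + i + (s + 1) + (t : ℕ) = N + i + s + ((t : ℕ) + 1) by ring,
        show N + j + (s + 1) + (t : ℕ) = N + j + s + ((t : ℕ) + 1) by ring]
      exact h4
  obtain ⟨n, hn, hne⟩ := hw (N + i + m) (j - i) (by omega)
  apply hne
  have h2 := hcon (N + i + (n - (N + i + m))) (by omega) (N + j + (n - (N + i + m))) (by omega)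
    (h1 _)
  rw [show N + i + (n - (N + i + m)) + m = n by omega,
    show N + j + (n - (N + i + m)) + m = n + (j - i) by omega] at h2
  exact h2.symm

/-- Morse and Hedlund, for tails -/
lemma cnt_tail {w : ℕ → α} (hw : NP w) (N m : ℕ) : m + 1 ≤ cnt w {i | N ≤ i} m := by
  induction m with
  | zero =>
    unfold cnt
    have : (bl w 0 '' {i | N ≤ i}).Nonempty := ⟨_, N, le_refl N, rfl⟩
    have := (ncard_pos (toFinite _)).2 this
    omega
  | succ m ih =>
    obtain ⟨i, hi, j, hj, h1, h2⟩ := branch hw m N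
    have := cnt_succ (A := {i | N ≤ i}) hi hj h1 h2
    omega

lemma cnt_univ {w : ℕ → α} (hw : NP w) (m : ℕ) : cnt w univ m + 1 ≤ cnt w univ (m + 1) := by
  obtain ⟨i, hi, j, hj, h1, h2⟩ := branch hw m 0
  exact cnt_succ (mem_univ i) (mem_univ j) h1 h2

/-- the complexity eventually grows by one -/
lemma ev_one {w : ℕ → α} (hw : NP w) {C : ℕ} (hC : ∀ m, cnt w univ m ≤ m + C) :
    ∃ m0, ∀ m ≥ m0, cnt w univ (m + 1) ≤ cnt w univ m + 1 := by
  by_contra hcon
  push Not at hcon
  have h1 : ∀ j : ℕ, ∃ m, m + j ≤ cnt w univ m := by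
    intro j
    induction j with
    | zero =>
      refine ⟨0, ?_⟩
      omega
    | succ j ih =>
      obtain ⟨m, hm⟩ := ih
      obtain ⟨m', hm', h2⟩ := hcon m
      have h3 : ∀ s, cnt w univ m + s ≤ cnt w univ (m + s) := by
        intro s
        induction s with
        | zero => exact le_rfl
        | succ s ih' =>
          have := cnt_univ hw (m + s)
          rw [show m + (s + 1) = m + s + 1 by ring]
          omega
      have h4 := h3 (m' - m)
      rw [show m + (m' - m) = m' by omega] at h4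
      exact ⟨m' + 1, by omega⟩
  obtain ⟨m, hm⟩ := h1 (C + 1)
  have := hC m
  omega

/-- blocks beyond a certain place occur infinitely often -/
lemma recur {w : ℕ → α} (hw : NP w) {C : ℕ} (hC : ∀ m, cnt w univ m ≤ m + C) {i : ℕ} (hi : C ≤ i)
    (h N : ℕ) : ∃ j ≥ N, bl w h j = bl w h i := by
  by_contra hcon
  push Not at hcon
  -- the last occurrence
  obtain ⟨q, hq1, hq2, hq3⟩ : ∃ q, i ≤ q ∧ bl w h q = bl w h i ∧ ∀ j > q, bl w h j ≠ bl w h i := by
    classical
    set P : ℕ → Prop := fun q => bl w h q = bl w h i with hP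
    have h1 : i < N := by
      by_contra hlt
      exact hcon i (by omega) rfl
    refine ⟨Nat.findGreatest P N, Nat.le_findGreatest h1.le rfl,
      Nat.findGreatest_spec (P := P) h1.le rfl, fun j hj hPj => ?_⟩
    by_cases hjN : j ≤ N
    · exact absurd (Nat.le_findGreatest (P := P) hjN hPj) (by omega)
    · exact hcon j (by omega) hPj
  set m := h + q with hm
  -- blocks containing the last occurrence
  have hsub : ∀ {j j' : ℕ}, j ≤ q → bl w m j' = bl w m j → j' ≤ j := by
    intro j j' hj he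
    by_contra hlt
    push Not at hlt
    apply hq3 (j' + (q - j)) (by omega)
    rw [← hq2]
    funext s
    have h1 := congrFun he ⟨q - j + s, by have := s.2; omega⟩
    unfold bl at h1 ⊢
    simp only at h1
    rw [show j' + (q - j) + (s : ℕ) = j' + (q - j + s) by ring,
      show q + (s : ℕ) = j + (q - j + s) by omega]
    exact h1
  have hinj : Set.InjOn (bl w m) {j | j ≤ q} := by
    intro j hj j' hj' he
    exact le_antisymm (hsub hj' he) (hsub hj he.symm)
  have h1 : (bl w m '' {j | j ≤ q}).ncard = q + 1 := by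
    rw [ncard_image_of_injOn hinj]
    have : {j : ℕ | j ≤ q} = ((Finset.range (q + 1) : Finset ℕ) : Set ℕ) := by
      ext j
      simp only [mem_setOf_eq, Finset.coe_range, mem_Iio]
      omega
    rw [this, ncard_coe_finset, Finset.card_range]
  have h2 : Disjoint (bl w m '' {j | j ≤ q}) (bl w m '' {j | q + 1 ≤ j}) := by
    rw [Set.disjoint_left]
    rintro _ ⟨j, hj, rfl⟩ ⟨j', hj', he⟩
    have := hsub hj he
    simp only [mem_setOf_eq] at hj hj'
    omega
  have h3 := cnt_tail hw (q + 1) m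
  have h4 := ncard_union_eq h2 (toFinite _) (toFinite _)
  have h5 : (bl w m '' {j | j ≤ q} ∪ bl w m '' {j | q + 1 ≤ j}).ncard ≤ cnt w univ m := by
    unfold cnt
    exact ncard_le_ncard (union_subset (image_mono (subset_univ _)) (image_mono (subset_univ _)))
      (toFinite _)
  have h6 := hC m
  unfold cnt at h3
  omega

end Pool.Agent.TH796.Fin
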