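import Mathlib
import Pool.Agent.TH796.Fin.Fin1

set_option autoImplicit false
set_option linter.unusedSectionVars false

/-!
# Words with `p(n) ≤ n + C`: returns to the right special block
-/

namespace Pool.Agent.TH796.Fin

open Set

variable {α : Type}

/-- the blocks of length `m` before `t` and before `u` are equal -/
def eqv (w : ℕ → α) (m t u : ℕ) : Prop :=
  m ≤ t ∧ m ≤ u ∧ ∀ s, 1 ≤ s → s ≤ m → w (t - s) = w (u - s)

section
variable {w : ℕ → α} {m t u v : ℕ}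

lemma eqv.symm (h : eqv w m t u) : eqv w m u t := ⟨h.2.1, h.1, fun s h1 h2 => (h.2.2 s h1 h2).symm⟩

lemma eqv.trans (h : eqv w m t u) (h' : eqv w m u v) : eqv w m t v :=
  ⟨h.1, h'.2.1, fun s h1 h2 => (h.2.2 s h1 h2).trans (h'.2.2 s h1 h2)⟩

lemma eqv.mono {m' : ℕ} (hm : m' ≤ m) (h : eqv w m t u) : eqv w m' t u :=
  ⟨hm.trans h.1, hm.trans h.2.1, fun s h1 h2 => h.2.2 s h1 (h2.trans hm)⟩

lemma eqv.succ (h : eqv w m t u) (hw : w t = w u) : eqv w (m + 1) (t + 1) (u + 1) := by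
  refine ⟨Nat.succ_le_succ h.1, Nat.succ_le_succ h.2.1, fun s h1 h2 => ?_⟩
  obtain ⟨s, rfl⟩ : ∃ s', s = s' + 1 := ⟨s - 1, by omega⟩
  rw [Nat.add_sub_add_right, Nat.add_sub_add_right]
  rcases Nat.eq_zero_or_pos s with h0 | h0
  · subst h0
    exact hw
  · exact h.2.2 s h0 (by omega)

lemma eqv_iff : eqv w m t u ↔ m ≤ t ∧ m ≤ u ∧ bl w m (t - m) = bl w m (u - m) := by
  constructor
  · rintro ⟨h1, h2, h3⟩
    refine ⟨h1, h2, ?_⟩
    funext s
    have := s.2
    have h4 := h3 (m - s) (by omega) (by omega)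
    unfold bl
    rw [show t - m + (s : ℕ) = t - (m - s) by omega, show u - m + (s : ℕ) = u - (m - s) by omega]
    exact h4
  · rintro ⟨h1, h2, h3⟩
    refine ⟨h1, h2, fun s h4 h5 => ?_⟩
    have h6 := congrFun h3 ⟨m - s, by omega⟩
    unfold bl at h6
    simp only at h6
    rw [show t - m + (m - s) = t - s by omega, show u - m + (m - s) = u - s by omega] at h6
    exact h6

end

/-- the ends of the right special blocks of length `m` -/
def T (w : ℕ → α) (m : ℕ) : Set ℕ := {t | ∃ u, eqv w m t u ∧ w u ≠ w t}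

section
variable {w : ℕ → α} {m t u v : ℕ}

lemma T_anti : T w (m + 1) ⊆ T w m := by
  rintro t ⟨u, h1, h2⟩
  exact ⟨u, h1.mono (Nat.le_succ m), h2⟩

lemma T_antitone : Antitone (T w) := antitone_nat_of_succ_le fun _ => T_anti

lemma T_closed (ht : t ∈ T w m) (h : eqv w m t u) : u ∈ T w m := by
  obtain ⟨v, h1, h2⟩ := ht
  by_cases h3 : w u = w t
  · exact ⟨v, h.symm.trans h1, by rw [h3]; exact h2⟩
  · exact ⟨t, h.symm, fun h' => h3 h'.symm⟩

lemma eq_of_notMem (ht : t ∉ T w m) (h : eqv w m t u) : w t = w u := by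
  by_contra hne
  exact ht ⟨u, h, fun h' => hne h'.symm⟩

end

/-- the structure of a word with one right special block of each length -/
structure Str (w : ℕ → α) (m0 : ℕ) (a b : α) : Prop where
  np : NP w
  ne : a ≠ b
  un : ∀ m ≥ m0, ∀ t ∈ T w m, ∀ u ∈ T w m, eqv w m t u
  let' : ∀ t ∈ T w m0, w t = a ∨ w t = b
  rec' : ∃ C, ∀ i ≥ C, ∀ h N, ∃ j ≥ N, bl w h j = bl w h i

variable [Finite α]

lemma T_inf {w : ℕ → α} (hw : NP w) (m N : ℕ) : ∃ t ≥ N, t ∈ T w m := by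
  obtain ⟨i, hi, j, hj, h1, h2⟩ := branch hw m N
  refine ⟨i + m, by omega, j + m, eqv_iff.2 ⟨by omega, by omega, ?_⟩, fun h => h2 h.symm⟩
  rw [Nat.add_sub_cancel, Nat.add_sub_cancel]
  exact h1

lemma exists_str {w : ℕ → α} (hw : NP w) {C : ℕ} (hC : ∀ m, cnt w univ m ≤ m + C) :
    ∃ m0 a b, Str w m0 a b := by
  obtain ⟨m0, hm0⟩ := ev_one hw hC
  obtain ⟨t, -, ht⟩ := T_inf hw m0 0
  obtain ⟨u, hu1, hu2⟩ := ht
  -- uniqueness
  have key : ∀ m ≥ m0, ∀ {t u t' u' : ℕ}, eqv w m t u → w u ≠ w t → eqv w m t' u' →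
      w u' ≠ w t' → (eqv w m t' t ∧ w t' = w t) ∨ (eqv w m t' u ∧ w t' = w u) := by
    intro m hm t u t' u' h1 h2 h3 h4
    have e : ∀ {x y : ℕ}, eqv w m x y → bl w m (x - m) = bl w m (y - m) := fun h => (eqv_iff.1 h).2.2
    have ex : ∀ {x : ℕ}, m ≤ x → w (x - m + m) = w x := fun h => by rw [Nat.sub_add_cancel h]
    rcases uniq (hm0 m hm) (e h1) (by rw [ex h1.1, ex h1.2.1]; exact fun h => h2 h.symm) (e h3)
      (by rw [ex h3.1, ex h3.2.1]; exact fun h => h4 h.symm) with ⟨h5, -⟩ | ⟨h5, -⟩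
    · left
      have h6 := bl_succ.1 h5
      rw [ex h3.1, ex h1.1] at h6
      exact ⟨eqv_iff.2 ⟨h3.1, h1.1, h6.1⟩, h6.2⟩
    · right
      have h6 := bl_succ.1 h5
      rw [ex h3.1, ex h1.2.1] at h6
      exact ⟨eqv_iff.2 ⟨h3.1, h1.2.1, h6.1⟩, h6.2⟩
  refine ⟨m0, w t, w u, hw, hu2.symm, fun m hm t ht u hu => ?_, fun t' ht' => ?_,
    C, fun i hi h N => recur hw hC hi h N⟩
  · obtain ⟨t1, h1, h2⟩ := ht
    obtain ⟨u1, h3, h4⟩ := hu
    rcases key m hm h1 h2 h3 h4 with ⟨h5, -⟩ | ⟨h5, -⟩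
    · exact h5.symm
    · exact h1.trans h5.symm
  · obtain ⟨u', h3, h4⟩ := ht'
    rcases key m0 le_rfl hu1 hu2 h3 h4 with ⟨-, h5⟩ | ⟨-, h5⟩
    · exact Or.inl h5
    · exact Or.inr h5

namespace Str

variable {w : ℕ → α} {m0 : ℕ} {a b : α}

lemma swap (S : Str w m0 a b) : Str w m0 b a :=
  ⟨S.np, S.ne.symm, S.un, fun t ht => (S.let' t ht).symm, S.rec'⟩

lemma letter (S : Str w m0 a b) {m t : ℕ} (hm : m0 ≤ m) (ht : t ∈ T w m) : w t = a ∨ w t = b :=
  S.let' t (T_antitone hm ht)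

/-- no letter is constant on `T` -/
lemma not_const (S : Str w m0 a b) {m : ℕ} (hm : m0 ≤ m) (N : ℕ) (y : α) :
    ∃ t ≥ N, t ∈ T w m ∧ w t ≠ y := by
  by_contra hcon
  push Not at hcon
  obtain ⟨t, ht1, ht⟩ := T_inf S.np m N
  obtain ⟨u, hu1, hu⟩ := T_inf S.np m (t + 1)
  have h0 := S.un m hm t ht u hu
  have h1 : ∀ i, eqv w m (t + i) (u + i) ∧ w (t + i) = w (u + i) := by
    have hl : ∀ i, eqv w m (t + i) (u + i) → w (t + i) = w (u + i) := by
      intro i hi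
      by_cases h2 : t + i ∈ T w m
      · rw [hcon _ (by omega) h2, hcon _ (by omega) (T_closed h2 hi)]
      · exact eq_of_notMem h2 hi
    intro i
    induction i with
    | zero => exact ⟨h0, hl 0 h0⟩
    | succ i ih =>
      have h2 := (ih.1.succ ih.2).mono (Nat.le_succ m)
      exact ⟨h2, hl (i + 1) h2⟩
  obtain ⟨n, hn, hne⟩ := S.np t (u - t) (by omega)
  have h2 := (h1 (n - t)).2
  rw [show t + (n - t) = n by omega, show u + (n - t) = n + (u - t) by omega] at h2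
  exact hne h2.symm

lemma exists_a (S : Str w m0 a b) {m : ℕ} (hm : m0 ≤ m) (N : ℕ) : ∃ t ≥ N, t ∈ T w m ∧ w t = a := by
  obtain ⟨t, h1, h2, h3⟩ := S.not_const hm N b
  exact ⟨t, h1, h2, (S.letter hm h2).resolve_right h3⟩

lemma exists_b (S : Str w m0 a b) {m : ℕ} (hm : m0 ≤ m) (N : ℕ) : ∃ t ≥ N, t ∈ T w m ∧ w t = b :=
  S.swap.exists_a hm N

/-- an element with the same letter, far away -/
lemma exists_same (S : Str w m0 a b) {m m' t : ℕ} (hm : m0 ≤ m) (hm' : m0 ≤ m') (ht : t ∈ T w m)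
    (N : ℕ) : ∃ u ≥ N, u ∈ T w m' ∧ w u = w t := by
  rcases S.letter hm ht with h | h
  · obtain ⟨u, h1, h2, h3⟩ := S.exists_a hm' N
    exact ⟨u, h1, h2, h3.trans h.symm⟩
  · obtain ⟨u, h1, h2, h3⟩ := S.exists_b hm' N
    exact ⟨u, h1, h2, h3.trans h.symm⟩

end Str

/-- the return time -/
noncomputable def nx (w : ℕ → α) (m t : ℕ) : ℕ := sInf {i | 1 ≤ i ∧ t + i ∈ T w m}

section nx
variable {w : ℕ → α} (hw : NP w) (m t : ℕ)

include hw in
lemma nx_mem : 1 ≤ nx w m t ∧ t + nx w m t ∈ T w m := by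
  have : ({i | 1 ≤ i ∧ t + i ∈ T w m} : Set ℕ).Nonempty := by
    obtain ⟨u, h1, h2⟩ := T_inf hw m (t + 1)
    exact ⟨u - t, by omega, by rw [show t + (u - t) = u by omega]; exact h2⟩
  exact Nat.sInf_mem this

lemma nx_le {i : ℕ} (h1 : 1 ≤ i) (h2 : t + i ∈ T w m) : nx w m t ≤ i := Nat.sInf_le ⟨h1, h2⟩

lemma nx_notMem {i : ℕ} (h1 : 1 ≤ i) (h2 : i < nx w m t) : t + i ∉ T w m := fun h =>
  absurd (nx_le m t h1 h) (by omega)

end nx

namespace Str

variable {w : ℕ → α} {m0 : ℕ} {a b : α}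

lemma fwd (S : Str w m0 a b) {m t u : ℕ} (hm : m0 ≤ m) (ht : t ∈ T w m) (hu : u ∈ T w m)
    (h : w t = w u) : ∀ i ≤ nx w m t, eqv w (m + i) (t + i) (u + i) := by
  intro i
  induction i with
  | zero => intro _; exact S.un m hm t ht u hu
  | succ i ih =>
    intro hi
    have h1 := ih (by omega)
    have h2 : w (t + i) = w (u + i) := by
      rcases Nat.eq_zero_or_pos i with h0 | h0
      · subst h0
        exact h
      · exact eq_of_notMem (nx_notMem m t h0 (by omega)) (h1.mono (by omega))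
    exact h1.succ h2

lemma nx_congr (S : Str w m0 a b) {m t u : ℕ} (hm : m0 ≤ m) (ht : t ∈ T w m) (hu : u ∈ T w m)
    (h : w t = w u) : nx w m t = nx w m u := by
  have key : ∀ {t u : ℕ}, t ∈ T w m → u ∈ T w m → w t = w u → nx w m u ≤ nx w m t := by
    intro t u ht hu h
    have h1 := S.fwd hm ht hu h _ le_rfl
    have h2 := nx_mem S.np m t
    exact nx_le m u h2.1 (T_closed h2.2 (h1.mono (by omega)))
  exact le_antisymm (key hu ht h.symm) (key ht hu h)

lemma pred (S : Str w m0 a b) {m s0 t : ℕ} (hs0 : s0 ∈ T w m) (h0 : s0 < t) (ht : t ∈ T w m) :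
    ∃ s ∈ T w m, s0 ≤ s ∧ s < t ∧ s + nx w m s = t := by
  classical
  set P : ℕ → Prop := fun s => s ∈ T w m with hP
  set s := Nat.findGreatest P (t - 1) with hs
  have h1 : s ∈ T w m := Nat.findGreatest_spec (P := P) (by omega : s0 ≤ t - 1) hs0
  have h2 : s0 ≤ s := Nat.le_findGreatest (by omega) hs0
  have h3 : s ≤ t - 1 := Nat.findGreatest_le _
  refine ⟨s, h1, h2, by omega, ?_⟩
  have h4 := nx_mem S.np m s
  have h5 : nx w m s ≤ t - s := nx_le m s (by omega) (by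
    rw [show s + (t - s) = t by omega]
    exact ht)
  by_contra hne
  have h6 : s + nx w m s ≤ s := Nat.le_findGreatest (P := P) (by omega) h4.2
  omega

lemma kept_iff (S : Str w m0 a b) {m s s' : ℕ} (hm : m0 ≤ m) (hs : s ∈ T w m) (hs' : s' ∈ T w m)
    (h : w s = w s') (h1 : s + nx w m s ∈ T w (m + 1)) : s' + nx w m s' ∈ T w (m + 1) := by
  have h2 := S.fwd hm hs hs' h _ le_rfl
  rw [← S.nx_congr hm hs hs' h]
  have h3 := (nx_mem S.np m s).1
  exact T_closed h1 (h2.mono (by omega))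

/-- the ends reached with the letter `y` remain -/
def Kept (w : ℕ → α) (m : ℕ) (y : α) : Prop := ∀ s ∈ T w m, w s = y → s + nx w m s ∈ T w (m + 1)

lemma not_kept (S : Str w m0 a b) {m : ℕ} (hm : m0 ≤ m) {y : α} (h : ¬ Kept w m y) :
    ∀ s ∈ T w m, w s = y → s + nx w m s ∉ T w (m + 1) := by
  intro s hs hy h1
  exact h fun s' hs' hy' => S.kept_iff hm hs hs' (hy.trans hy'.symm) h1

lemma kept_or (S : Str w m0 a b) {m : ℕ} (hm : m0 ≤ m) : Kept w m a ∨ Kept w m b := by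
  by_contra hcon
  push Not at hcon
  obtain ⟨s0, -, hs0⟩ := T_inf S.np m 0
  obtain ⟨t, ht1, ht⟩ := T_inf S.np (m + 1) (s0 + 1)
  obtain ⟨s, hs, -, -, h1⟩ := S.pred hs0 (by omega) (T_anti ht)
  rcases S.letter hm hs with h | h
  · exact S.not_kept hm hcon.1 s hs h (by rw [h1]; exact ht)
  · exact S.not_kept hm hcon.2 s hs h (by rw [h1]; exact ht)

/-- if the ends reached with the letter `a` are lost, then they are followed by `b` -/
lemma forced (S : Str w m0 a b) {m : ℕ} (hm : m0 ≤ m) (h : ¬ Kept w m a) {s : ℕ} (hs : s ∈ T w m)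
    (ha : w s = a) : w (s + nx w m s) = b := by
  have h1 := nx_mem S.np m s
  refine (S.letter hm h1.2).resolve_left fun h2 => ?_
  -- the letter `a` propagates
  have h3 : ∀ s' ∈ T w m, w s' = a → w (s' + nx w m s') = a := by
    intro s' hs' ha'
    by_contra hne
    have h4 := S.fwd hm hs hs' (ha.trans ha'.symm) _ le_rfl
    rw [S.nx_congr hm hs hs' (ha.trans ha'.symm)] at h4
    have h5 := (nx_mem S.np m s').1
    refine S.not_kept hm h s hs ha ⟨s' + nx w m s', ?_, ?_⟩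
    · rw [S.nx_congr hm hs hs' (ha.trans ha'.symm)]
      exact h4.mono (by omega)
    · rw [h2]
      exact hne
  have h4 : ∀ u, u ∈ T w m → s ≤ u → w u = a := by
    intro u
    induction u using Nat.strong_induction_on with
    | _ u ih =>
      intro hu hsu
      rcases Nat.eq_or_lt_of_le hsu with h5 | h5
      · rw [← h5]
        exact ha
      · obtain ⟨p, hp, h6, h7, h8⟩ := S.pred hs h5 hu
        rw [← h8]
        exact h3 p hp (ih p h7 hp h6)
  obtain ⟨t, ht1, ht2, ht3⟩ := S.exists_b hm s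
  exact S.ne ((h4 t ht2 ht1).symm.trans ht3)

end Str

end Pool.Agent.TH796.Fin
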