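import Mathlib
import Pool.Agent.TH796.Fin.Fin2

set_option autoImplicit false
set_option linter.unusedSectionVars false

/-!
# Words with `p(n) ≤ n + C`: both letters lose ends again and again
-/

namespace Pool.Agent.TH796.Fin

open Set

variable {α : Type} [Finite α]

namespace Str

variable {w : ℕ → α} {m0 : ℕ} {a b : α}

lemma nx_mono_m (S : Str w m0 a b) {m m' t : ℕ} (h : m ≤ m') : nx w m t ≤ nx w m' t := by
  have h1 := nx_mem S.np m' t
  exact nx_le m t h1.1 (T_antitone h h1.2)

/-- the number of blocks is at most the sum of the return times -/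
lemma count (S : Str w m0 a b) {m G : ℕ} (hm : m0 ≤ m) (hG : ∀ t ∈ T w m, nx w m t ≤ G) :
    m + 1 ≤ 2 * G := by
  classical
  obtain ⟨ta, hta1, hta, hta2⟩ := S.exists_a hm m
  obtain ⟨tb, htb1, htb, htb2⟩ := S.exists_b hm m
  set F : Bool × Fin G → (Fin m → α) := fun q => bl w m ((if q.1 then ta else tb) + q.2 - m) with hF
  have hsub : bl w m '' {i | ta ≤ i} ⊆ range F := by
    rintro _ ⟨i, hi, rfl⟩
    change ta ≤ i at hi
    -- the last element of `T` up to `i + m`
    set P : ℕ → Prop := fun s => s ∈ T w m with hP
    set s := Nat.findGreatest P (i + m) with hs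
    have h1 : s ∈ T w m := Nat.findGreatest_spec (P := P) (by omega : ta ≤ i + m) hta
    have h3 : s ≤ i + m := Nat.findGreatest_le _
    have h4 := nx_mem S.np m s
    have h5 : i + m < s + nx w m s := by
      by_contra hlt
      push Not at hlt
      have h6 : s + nx w m s ≤ s := Nat.le_findGreatest (P := P) hlt h4.2
      omega
    have h6 : i + m - s < G := lt_of_lt_of_le (by omega) (hG s h1)
    have key : ∀ {u : ℕ}, u ∈ T w m → w s = w u → bl w m (u + (i + m - s) - m) = bl w m i := by
      intro u hu hsu
      have h7 := S.fwd hm h1 hu hsu (i + m - s) (by omega)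
      have h8 := (eqv_iff.1 (h7.mono (Nat.le_add_right m _))).2.2
      rw [← h8, show s + (i + m - s) - m = i by omega]
    rcases S.letter hm h1 with h | h
    · refine ⟨(true, ⟨i + m - s, h6⟩), ?_⟩
      exact key hta (h.trans hta2.symm)
    · refine ⟨(false, ⟨i + m - s, h6⟩), ?_⟩
      exact key htb (h.trans htb2.symm)
  have h1 := cnt_tail S.np ta m
  have h2 : cnt w {i | ta ≤ i} m ≤ (range F).ncard := ncard_le_ncard hsub (toFinite _)
  have h3 : (range F).ncard ≤ 2 * G := by
    rw [← image_univ]
    refine (ncard_image_le (toFinite _)).trans ?_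
    rw [ncard_univ, Nat.card_eq_fintype_card, Fintype.card_prod, Fintype.card_bool,
      Fintype.card_fin]
  omega

/-- the ends reached with the letter `a` are lost again and again -/
lemma lost (S : Str w m0 a b) {M : ℕ} (hM : m0 ≤ M) : ∃ m ≥ M, ¬ Kept w m a := by
  by_contra hcon
  push Not at hcon
  -- the return time after `a` is constant
  have h1 : ∀ m ≥ M, ∀ t ∈ T w m, w t = a → ∀ u ∈ T w M, w u = a → nx w m t = nx w M u := by
    intro m hm
    induction m, hm using Nat.le_induction with
    | base => exact fun t ht ha u hu hua => S.nx_congr hM ht hu (ha.trans hua.symm)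
    | succ m hm ih =>
      intro t ht ha u hu hua
      have h2 := hcon m hm t (T_anti ht) ha
      have h3 := ih t (T_anti ht) ha u hu hua
      rw [← h3]
      exact le_antisymm (nx_le (m + 1) t (nx_mem S.np m t).1 h2) (S.nx_mono_m (Nat.le_succ m))
  -- ends with the letter `b` are not lost
  have h2 : ∀ m ≥ M, ∃ N, ∀ t ≥ N, t ∈ T w M → w t = b → t ∈ T w m := by
    intro m hm
    induction m, hm using Nat.le_induction with
    | base => exact ⟨0, fun t _ ht _ => ht⟩
    | succ m hm ih =>
      obtain ⟨N, hN⟩ := ih
      obtain ⟨s0, -, hs0⟩ := T_inf S.np m 0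
      refine ⟨max N (s0 + 1), fun t ht1 ht hb => ?_⟩
      have h3 := hN t (le_trans (le_max_left _ _) ht1) ht hb
      obtain ⟨s, hs, -, -, h4⟩ := S.pred hs0 (by have := le_max_right N (s0 + 1); omega) h3
      rcases S.letter (hM.trans hm) hs with h | h
      · have := hcon m hm s hs h
        rwa [h4] at this
      · by_cases hk : Kept w m b
        · have := hk s hs h
          rwa [h4] at this
        · have := S.swap.forced (hM.trans hm) hk hs h
          rw [h4, hb] at this
          exact absurd this.symm S.ne
  -- a gap which occurs infinitely often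
  obtain ⟨C, hC⟩ := S.rec'
  obtain ⟨β, hβ1, hβ, hβb⟩ := S.exists_b hM (C + M)
  obtain ⟨β', hβ1', hβ', hβb'⟩ := S.exists_b hM (β + 1)
  obtain ⟨u, hu1, hu, hua⟩ := S.exists_a hM 0
  set G := (β' - β) + nx w M u with hG
  set m := M + 2 * G with hm
  -- the return time after `b` is larger than the gap
  have h3 : ∃ t ∈ T w m, G < nx w m t := by
    by_contra hcon2
    push Not at hcon2
    have := S.count (by omega) hcon2
    omega
  obtain ⟨t1, ht1, ht2⟩ := h3
  have ht3 : w t1 = b := by
    refine (S.letter (by omega) ht1).resolve_left fun h => ?_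
    have := h1 m (by omega) t1 ht1 h u hu hua
    omega
  obtain ⟨N, hN⟩ := h2 m (by omega)
  obtain ⟨j, hj1, hj⟩ := hC (β - M) (by omega) (β' - β + M + 1) N
  have hlet : ∀ s < β' - β + M + 1, w (j + s) = w (β - M + s) := fun s hs => congrFun hj ⟨s, hs⟩
  have he : ∀ s ≤ β' - β, eqv w M (j + M + s) (β + s) := by
    intro s hs
    refine ⟨by omega, by omega, fun r h4 h5 => ?_⟩
    have h6 := hlet (M + s - r) (by omega)
    rw [show j + M + s - r = j + (M + s - r) by omega, show β + s - r = β - M + (M + s - r) by omega]
    exact h6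
  have ht : j + M ∈ T w M := T_closed hβ (he 0 (Nat.zero_le _)).symm
  have htb : w (j + M) = b := by
    rw [hlet M (by omega), show β - M + M = β by omega]
    exact hβb
  have ht' : j + M + (β' - β) ∈ T w M := by
    have h4 := he (β' - β) le_rfl
    rw [show β + (β' - β) = β' by omega] at h4
    exact T_closed hβ' h4.symm
  have htb' : w (j + M + (β' - β)) = b := by
    rw [show j + M + (β' - β) = j + (β' - β + M) by ring, hlet (β' - β + M) (by omega),
      show β - M + (β' - β + M) = β' by omega]
    exact hβb'
  have h4 := hN (j + M) (by omega) ht htb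
  have h5 := hN (j + M + (β' - β)) (by omega) ht' htb'
  have h6 := nx_le m (j + M) (by omega) h5
  have h7 := S.nx_congr (by omega) h4 ht1 (htb.trans ht3.symm)
  omega

/-- divisibility of the return times goes down -/
lemma descend (S : Str w m0 a b) {m k : ℕ} (hm : m0 ≤ m) (h : ∀ t ∈ T w (m + 1), k ∣ nx w (m + 1) t) :
    ∀ t ∈ T w m, k ∣ nx w m t := by
  intro t ht
  obtain ⟨u, -, hu, hut⟩ := S.exists_same hm (hm.trans (Nat.le_succ m)) ht 0
  rw [S.nx_congr hm ht (T_anti hu) hut.symm]
  have h1 := nx_mem S.np m u
  by_cases hv : u + nx w m u ∈ T w (m + 1)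
  · have h2 : nx w (m + 1) u = nx w m u :=
      le_antisymm (nx_le (m + 1) u h1.1 hv) (S.nx_mono_m (Nat.le_succ m))
    rw [← h2]
    exact h u hu
  · -- the letter of `u` is not kept
    have key : ∀ {a b : α}, Str w m0 a b → w u = a → k ∣ nx w m u := by
      intro a b S ha
      have h2 : ¬ Kept w m a := fun hk => hv (hk u (T_anti hu) ha)
      have h3 : Kept w m b := (S.kept_or hm).resolve_left h2
      have h4 := S.forced hm h2 (T_anti hu) ha
      have h5 := h3 _ h1.2 h4
      have h6 := nx_mem S.np m (u + nx w m u)
      have h7 : nx w (m + 1) u = nx w m u + nx w m (u + nx w m u) := by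
        refine le_antisymm (nx_le (m + 1) u (by omega) (by rw [← add_assoc]; exact h5)) ?_
        by_contra hlt
        push Not at hlt
        have h8 := nx_mem S.np (m + 1) u
        have h9 := T_anti h8.2
        rcases lt_trichotomy (nx w (m + 1) u) (nx w m u) with h10 | h10 | h10
        · exact nx_notMem m u h8.1 h10 h9
        · rw [h10] at h8
          exact hv h8.2
        · refine nx_notMem (w := w) m (u + nx w m u) (i := nx w (m + 1) u - nx w m u) (by omega)
            (by omega) ?_
          rw [show u + nx w m u + (nx w (m + 1) u - nx w m u) = u + nx w (m + 1) u by omega]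
          exact h9
      obtain ⟨u', -, hu', hub⟩ := S.exists_b (hm.trans (Nat.le_succ m)) 0
      have h8 : nx w (m + 1) u' = nx w m u' :=
        le_antisymm (nx_le (m + 1) u' (nx_mem S.np m u').1 (h3 u' (T_anti hu') hub))
          (S.nx_mono_m (Nat.le_succ m))
      have h9 := S.nx_congr hm (T_anti hu') h1.2 (hub.trans h4.symm)
      have h10 := h u' hu'
      rw [h8, h9] at h10
      have h11 := h u hu
      rw [h7] at h11
      exact (Nat.dvd_add_left h10).1 h11
    rcases S.letter hm (T_anti hu) with h2 | h2
    · exact key S h2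
    · exact key S.swap h2

lemma descend' (S : Str w m0 a b) {m k : ℕ} (hm : m0 ≤ m) (h : ∀ t ∈ T w m, k ∣ nx w m t) :
    ∀ t ∈ T w m0, k ∣ nx w m0 t := by
  induction m, hm using Nat.le_induction with
  | base => exact h
  | succ m hm ih => exact ih (S.descend hm h)

end Str

end Pool.Agent.TH796.Fin
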