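import Mathlib
import Pool.Agent.TH796.Fin.Fin3

set_option autoImplicit false
set_option linter.unusedSectionVars false

/-!
# Words with `p(n) ≤ n + C` and their groupings
-/

namespace Pool.Agent.TH796.Fin

open Set

variable {α : Type} [Finite α]

/-- the word grouped into blocks of length `k` has at most `n + C` blocks of length `n` -/
def Hk (w : ℕ → α) (k : ℕ) : Prop := ∃ C, ∀ n, cnt w {i | k ∣ i} (k * n) ≤ n + C

/-- infinitely many ends of right special blocks with a given residue and a given letter -/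
def Rho (w : ℕ → α) (k m r : ℕ) (y : α) : Prop := ∀ N, ∃ t ≥ N, t ∈ T w m ∧ t % k = r ∧ w t = y

lemma Rho.anti {w : ℕ → α} {k m m' r : ℕ} {y : α} (hm : m ≤ m') (h : Rho w k m' r y) :
    Rho w k m r y := fun N => by
  obtain ⟨t, h1, h2, h3⟩ := h N
  exact ⟨t, h1, T_antitone hm h2, h3⟩

namespace Str

variable {w : ℕ → α} {m0 : ℕ} {a b : α}

lemma grow (S : Str w m0 a b) {k m r : ℕ} (hm : m0 ≤ m) (hr : m % k = r)
    (ha : Rho w k m r a) (hb : Rho w k m r b) :
    cnt w {i | k ∣ i} m + 1 ≤ cnt w {i | k ∣ i} (m + 1) := by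
  obtain ⟨t, ht1, ht, htr, hta⟩ := ha m
  obtain ⟨u, hu1, hu, hur, hub⟩ := hb m
  have e := (eqv_iff.1 (S.un m hm t ht u hu)).2.2
  refine cnt_succ (A := {i | k ∣ i}) (i := t - m) (j := u - m)
    ((Nat.modEq_iff_dvd' ht1).1 (hr.trans htr.symm)) ((Nat.modEq_iff_dvd' hu1).1 (hr.trans hur.symm))
    e ?_
  rw [Nat.sub_add_cancel ht1, Nat.sub_add_cancel hu1, hta, hub]
  exact S.ne

lemma two_res (S : Str w m0 a b) {k r r' : ℕ} (hk : Hk w k) (hrr : r < r') (hr : r' < k)
    (h1 : ∀ m, Rho w k m r a ∧ Rho w k m r b) (h2 : ∀ m, Rho w k m r' a ∧ Rho w k m r' b) :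
    False := by
  obtain ⟨C, hC⟩ := hk
  have hstep : ∀ q, m0 ≤ k * q →
      cnt w {i | k ∣ i} (k * q) + 2 ≤ cnt w {i | k ∣ i} (k * (q + 1)) := by
    intro q hq
    have e : ∀ s < k, (k * q + s) % k = s := fun s hs => by
      rw [Nat.mul_add_mod, Nat.mod_eq_of_lt hs]
    have g1 := S.grow (k := k) (m := k * q + r) (by omega) (e r (by omega)) (h1 _).1 (h1 _).2
    have g2 := S.grow (k := k) (m := k * q + r') (by omega) (e r' hr) (h2 _).1 (h2 _).2
    have m1 := cnt_mono w {i | k ∣ i} (Nat.le_add_right (k * q) r)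
    have m2 := cnt_mono w {i | k ∣ i} (show k * q + r + 1 ≤ k * q + r' by omega)
    have m3 := cnt_mono w {i | k ∣ i} (show k * q + r' + 1 ≤ k * (q + 1) by
      rw [Nat.mul_add, Nat.mul_one]
      omega)
    omega
  have hk0 : 0 < k := by omega
  have hj : ∀ j, 2 * j ≤ cnt w {i | k ∣ i} (k * (m0 + j)) := by
    intro j
    induction j with
    | zero => omega
    | succ j ih =>
      have h3 := hstep (m0 + j) (by nlinarith)
      rw [show m0 + (j + 1) = m0 + j + 1 by ring]
      omega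
  have h3 := hj (m0 + C + 1)
  have h4 := hC (m0 + (m0 + C + 1))
  omega

lemma aux (S : Str w m0 a b) {k M : ℕ} (hk0 : 0 < k) (hM : m0 ≤ M) {rinf : ℕ → α → Prop}
    (hinf : ∀ r y, rinf r y → ∀ m, Rho w k m r y)
    (hst : ∀ m ≥ M, ∀ r < k, ∀ y, (y = a ∨ y = b) → Rho w k m r y → rinf r y) :
    ∀ r < k, rinf r a ∨ rinf r b → rinf r b := by
  classical
  obtain ⟨m, hm, hlost⟩ := S.lost hM
  obtain ⟨ub, -, hub, hubb⟩ := S.exists_b (hM.trans hm) 0
  set l := nx w m ub with hl
  set σ : ℕ → ℕ := fun r => (r + (k * l - l)) % k with hσ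
  have hkl : l ≤ k * l := Nat.le_mul_of_pos_left l hk0
  -- the shift
  have h1 : ∀ r < k, rinf r a ∨ rinf r b → rinf (σ r) b := by
    intro r hr hP
    refine hst m hm (σ r) (Nat.mod_lt _ hk0) b (Or.inr rfl) fun N => ?_
    obtain ⟨s0, hs0N, hs0⟩ := T_inf S.np m N
    have h2 : ∃ t ≥ s0 + 1, t ∈ T w (m + 1) ∧ t % k = r := by
      rcases hP with h | h
      · obtain ⟨t, h3, h4, h5, -⟩ := hinf r a h (m + 1) (s0 + 1)
        exact ⟨t, h3, h4, h5⟩
      · obtain ⟨t, h3, h4, h5, -⟩ := hinf r b h (m + 1) (s0 + 1)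
        exact ⟨t, h3, h4, h5⟩
    obtain ⟨t, ht1, ht, htr⟩ := h2
    obtain ⟨s, hs, hs1, -, hst⟩ := S.pred hs0 (by omega) (T_anti ht)
    have hsb : w s = b := by
      refine (S.letter (hM.trans hm) hs).resolve_left fun ha => ?_
      have := S.not_kept (hM.trans hm) hlost s hs ha
      rw [hst] at this
      exact this ht
    refine ⟨s, by omega, hs, ?_, hsb⟩
    have h3 : nx w m s = l := S.nx_congr (hM.trans hm) hs hub (hsb.trans hubb.symm)
    rw [h3] at hst
    have h4 : (s + k * l) % k = s % k := Nat.add_mul_mod_self_left s k l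
    rw [← h4, show s + k * l = t + (k * l - l) by omega, Nat.add_mod, htr, hσ]
    exact Nat.add_mod_mod _ _ _
  set P := (Finset.range k).filter fun r => rinf r a ∨ rinf r b with hP
  set Pb := (Finset.range k).filter fun r => rinf r b with hPb
  have hsub : Pb ⊆ P := by
    intro r hr
    rw [hPb, Finset.mem_filter] at hr
    rw [hP, Finset.mem_filter]
    exact ⟨hr.1, Or.inr hr.2⟩
  have hcard : P.card ≤ Pb.card := by
    refine Finset.card_le_card_of_injOn σ (fun r hr => ?_) (fun r hr r' hr' he => ?_)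
    · rw [Finset.mem_coe, hP, Finset.mem_filter, Finset.mem_range] at hr
      rw [Finset.mem_coe, hPb, Finset.mem_filter, Finset.mem_range]
      exact ⟨Nat.mod_lt _ hk0, h1 r hr.1 hr.2⟩
    · rw [Finset.mem_coe, hP, Finset.mem_filter, Finset.mem_range] at hr hr'
      have h2 : r ≡ r' [MOD k] := Nat.ModEq.add_right_cancel' _ he
      have h3 : r % k = r' % k := h2
      rwa [Nat.mod_eq_of_lt hr.1, Nat.mod_eq_of_lt hr'.1] at h3
  have heq := Finset.eq_of_subset_of_card_le hsub hcard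
  intro r hr h2
  have h3 : r ∈ P := by
    rw [hP, Finset.mem_filter, Finset.mem_range]
    exact ⟨hr, h2⟩
  rw [← heq, hPb, Finset.mem_filter] at h3
  exact h3.2

/-- a grouping of low complexity: the return times are divisible -/
lemma divis (S : Str w m0 a b) {k : ℕ} (hk0 : 0 < k) (hk : Hk w k) :
    ∀ t ∈ T w m0, k ∣ nx w m0 t := by
  classical
  set rinf : ℕ → α → Prop := fun r y => ∀ m, Rho w k m r y with hri
  have hex : ∀ (r : ℕ) (y : α), ∃ n, ∀ m ≥ n, Rho w k m r y → rinf r y := by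
    intro r y
    by_cases h : ∀ m, Rho w k m r y
    · exact ⟨0, fun _ _ _ => h⟩
    · push Not at h
      obtain ⟨n, hn⟩ := h
      exact ⟨n, fun m hm h1 => absurd (h1.anti hm) hn⟩
  choose f hf using hex
  set M := m0 + ∑ r ∈ Finset.range k, (f r a + f r b) with hM
  have hst : ∀ m ≥ M, ∀ r < k, ∀ y, (y = a ∨ y = b) → Rho w k m r y → rinf r y := by
    intro m hm r hr y hy h
    have h1 := Finset.single_le_sum (f := fun r => f r a + f r b) (fun _ _ => Nat.zero_le _)
      (Finset.mem_range.2 hr)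
    rcases hy with rfl | rfl
    · exact hf r _ m (by omega) h
    · exact hf r _ m (by omega) h
  have hb := S.aux hk0 (by omega : m0 ≤ M) (fun r y h => h) hst
  have ha := S.swap.aux hk0 (by omega : m0 ≤ M) (fun r y h => h)
    (fun m hm r hr y hy => hst m hm r hr y hy.symm)
  have hboth : ∀ r < k, (rinf r a ∨ rinf r b) → rinf r a ∧ rinf r b := fun r hr h =>
    ⟨ha r hr h.symm, hb r hr h⟩
  have hone : ∃ e, ∀ r < k, (rinf r a ∨ rinf r b) → r = e := by
    by_cases h : ∃ e < k, rinf e a ∨ rinf e b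
    · obtain ⟨e, he, h1⟩ := h
      refine ⟨e, fun r hr h2 => ?_⟩
      by_contra hne
      obtain ⟨x1, x2⟩ := hboth e he h1
      obtain ⟨x3, x4⟩ := hboth r hr h2
      rcases Nat.lt_or_gt_of_ne hne with h3 | h3
      · exact S.two_res hk h3 he (fun m => ⟨x3 m, x4 m⟩) (fun m => ⟨x1 m, x2 m⟩)
      · exact S.two_res hk h3 hr (fun m => ⟨x1 m, x2 m⟩) (fun m => ⟨x3 m, x4 m⟩)
    · push Not at h
      refine ⟨0, fun r hr h2 => ?_⟩
      have := h r hr
      rcases h2 with h2 | h2
      · exact absurd h2 this.1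
      · exact absurd h2 this.2
  obtain ⟨e, he⟩ := hone
  -- far away all ends have residue `e`
  have hN : ∀ r : ℕ, ∃ N, r < k → r ≠ e → ∀ t ≥ N, t ∈ T w M → t % k ≠ r := by
    intro r
    by_cases h1 : r < k ∧ r ≠ e
    · have h2 : ∀ y, (y = a ∨ y = b) → ¬ Rho w k M r y := fun y hy h => by
        have h3 := hst M le_rfl r h1.1 y hy h
        apply h1.2
        apply he r h1.1
        rcases hy with rfl | rfl
        · exact Or.inl h3
        · exact Or.inr h3
      have h3 := h2 a (Or.inl rfl)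
      have h4 := h2 b (Or.inr rfl)
      unfold Rho at h3 h4
      push Not at h3 h4
      obtain ⟨N1, h3⟩ := h3
      obtain ⟨N2, h4⟩ := h4
      refine ⟨max N1 N2, fun _ _ t ht1 ht htr => ?_⟩
      have g1 := le_max_left N1 N2
      have g2 := le_max_right N1 N2
      rcases S.letter (by omega) ht with h | h
      · exact h3 t (by omega) ht htr h
      · exact h4 t (by omega) ht htr h
    · exact ⟨0, fun x1 x2 => absurd ⟨x1, x2⟩ h1⟩
  choose g hg using hN
  set N := ∑ r ∈ Finset.range k, g r with hNdef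
  have hres : ∀ t ≥ N, t ∈ T w M → t % k = e := by
    intro t ht1 ht
    by_contra hne
    have hr := Nat.mod_lt t hk0
    have h1 := Finset.single_le_sum (f := fun r => g r) (fun _ _ => Nat.zero_le _)
      (Finset.mem_range.2 hr)
    exact hg (t % k) hr hne t (by omega) ht rfl
  refine S.descend' (m := M) (by omega) fun t ht => ?_
  obtain ⟨u, hu1, hu, hut⟩ := S.exists_same (by omega : m0 ≤ M) (by omega : m0 ≤ M) ht N
  rw [S.nx_congr (by omega) ht hu hut.symm]
  have h1 := nx_mem S.np M u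
  have h2 := hres u hu1 hu
  have h3 := hres (u + nx w M u) (by omega) h1.2
  have h4 : u ≡ u + nx w M u [MOD k] := h2.trans h3.symm
  have h5 := (Nat.modEq_iff_dvd' (Nat.le_add_right u _)).1 h4
  rwa [Nat.add_sub_cancel_left] at h5

end Str

/-- complexity from a grouping -/
lemma cnt_of_Hk {w : ℕ → α} {k : ℕ} (hk0 : 0 < k) (hk : Hk w k) :
    ∃ C, ∀ m, cnt w univ m ≤ m + C := by
  classical
  obtain ⟨C, hC⟩ := hk
  refine ⟨k * (2 + C), fun m => ?_⟩
  set L := k * (m / k + 2) with hL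
  have hLm : m + k ≤ L := by
    have h1 := Nat.div_add_mod m k
    have h2 := Nat.mod_lt m hk0
    rw [hL, Nat.mul_add]
    omega
  set f : Fin k × (Fin L → α) → (Fin m → α) := fun q j =>
    q.2 ⟨(q.1 : ℕ) + (j : ℕ), by have := q.1.2; have := j.2; omega⟩ with hf
  have hsub : bl w m '' univ ⊆ f '' ((univ : Set (Fin k)) ×ˢ (bl w L '' {i | k ∣ i})) := by
    rintro _ ⟨p, -, rfl⟩
    refine ⟨(⟨p % k, Nat.mod_lt p hk0⟩, bl w L (k * (p / k))), ⟨mem_univ _, k * (p / k),
      Dvd.intro _ rfl, rfl⟩, ?_⟩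
    funext j
    rw [hf]
    unfold bl
    simp only
    congr 1
    have := Nat.div_add_mod p k
    omega
  unfold cnt
  calc (bl w m '' univ).ncard
      ≤ (f '' ((univ : Set (Fin k)) ×ˢ (bl w L '' {i | k ∣ i}))).ncard :=
        ncard_le_ncard hsub (toFinite _)
    _ ≤ ((univ : Set (Fin k)) ×ˢ (bl w L '' {i | k ∣ i})).ncard := ncard_image_le (toFinite _)
    _ = k * cnt w {i | k ∣ i} L := by
        rw [ncard_prod, ncard_univ, Nat.card_eq_fintype_card, Fintype.card_fin]
        rfl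
    _ ≤ k * (m / k + 2 + C) := Nat.mul_le_mul_left k (hC _)
    _ ≤ m + k * (2 + C) := by
        have h1 := Nat.mul_div_le m k
        nlinarith

/-- **Only finitely many groupings have low complexity.** -/
theorem finite_k {w : ℕ → α} (hw : NP w) : ∃ K, ∀ k, 0 < k → Hk w k → k ≤ K := by
  by_cases hex : ∃ k, 0 < k ∧ Hk w k
  · obtain ⟨k0, hk0, hk⟩ := hex
    obtain ⟨C, hC⟩ := cnt_of_Hk hk0 hk
    obtain ⟨m0, a, b, S⟩ := exists_str hw hC
    obtain ⟨t, -, ht⟩ := T_inf hw m0 0
    refine ⟨nx w m0 t, fun k hk0 hk => ?_⟩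
    exact Nat.le_of_dvd (nx_mem hw m0 t).1 (S.divis hk0 hk t ht)
  · push Not at hex
    exact ⟨0, fun k h1 h2 => absurd h2 (hex k h1)⟩

end Pool.Agent.TH796.Fin
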