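import Mathlib
import Pool.Agent.TH796.Fin.Fin4
import Pool.Agent.TH796.AL.Alg5

set_option autoImplicit false
set_option linter.unusedSectionVars false

/-!
# Digits in the bases `c ^ k`
-/

namespace Pool.Agent.TH796.Fin

open Filter Topology
open Pool.Agent.TH796.AL Pool.Agent.TH932.Words Pool.Agent.TH796.AL.Final
open Pool.Agent.TH796.AL.TwoB

lemma floor_rec {c : ℕ} (hc : 2 ≤ c) (x : ℝ) (n : ℕ) :
    ⌊x * (c : ℝ) ^ (n + 1)⌋ = c * ⌊x * (c : ℝ) ^ n⌋ + ((dz c x n).val : ℤ) := by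
  have hc0 : (0 : ℝ) < c := by exact_mod_cast (by omega : 0 < c)
  have h3 : ((dz c x n).val : ℤ) = ⌊x * (c : ℝ) ^ (n + 1)⌋ % (c : ℤ) := by
    rw [← digit_eq hc]
    rfl
  have h4 : ⌊x * (c : ℝ) ^ (n + 1)⌋ / (c : ℤ) = ⌊x * (c : ℝ) ^ n⌋ := by
    rw [← Int.floor_div_natCast, pow_succ]
    congr 1
    field_simp
  have h5 := Int.mul_ediv_add_emod ⌊x * (c : ℝ) ^ (n + 1)⌋ (c : ℤ)
  rw [h4, ← h3] at h5
  exact h5.symm

lemma np_dz {c : ℕ} (hc : 2 ≤ c) {x : ℝ} (hx : Irrational x) : NP (dz c x) := by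
  intro N p hp
  by_contra hcon
  push Not at hcon
  have hc1 : (1 : ℝ) < c := by exact_mod_cast (by omega : 1 < c)
  have hc0 : (0 : ℝ) < c := by linarith
  set A : ℤ := ⌊x * (c : ℝ) ^ (N + p)⌋ - ⌊x * (c : ℝ) ^ N⌋ with hA
  have h1 : ∀ j : ℕ, ⌊x * (c : ℝ) ^ (N + j + p)⌋ - ⌊x * (c : ℝ) ^ (N + j)⌋ = (c : ℤ) ^ j * A := by
    intro j
    induction j with
    | zero => rw [pow_zero, one_mul, Nat.add_zero]
    | succ j ih =>
      rw [show N + (j + 1) + p = N + j + p + 1 by ring, show N + (j + 1) = N + j + 1 by ring,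
        floor_rec hc, floor_rec hc, hcon (N + j) (by omega), pow_succ]
      linear_combination (c : ℤ) * ih
  have h2 : x * ((c : ℝ) ^ p - 1) * (c : ℝ) ^ N = A := by
    by_contra hne
    have hδ : 0 < |x * ((c : ℝ) ^ p - 1) * (c : ℝ) ^ N - A| := abs_pos.2 (sub_ne_zero.2 hne)
    obtain ⟨j, hj⟩ := pow_unbounded_of_one_lt (1 / |x * ((c : ℝ) ^ p - 1) * (c : ℝ) ^ N - A|) hc1
    have h3 : (c : ℝ) ^ j * (x * ((c : ℝ) ^ p - 1) * (c : ℝ) ^ N - A)
        = Int.fract (x * (c : ℝ) ^ (N + j + p)) - Int.fract (x * (c : ℝ) ^ (N + j)) := by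
      have h4 : ((⌊x * (c : ℝ) ^ (N + j + p)⌋ : ℝ) - ⌊x * (c : ℝ) ^ (N + j)⌋) = (c : ℝ) ^ j * A := by
        exact_mod_cast h1 j
      rw [← Int.self_sub_floor, ← Int.self_sub_floor]
      have h5 : (c : ℝ) ^ j * (x * ((c : ℝ) ^ p - 1) * (c : ℝ) ^ N)
          = x * (c : ℝ) ^ (N + j + p) - x * (c : ℝ) ^ (N + j) := by
        rw [pow_add, pow_add]
        ring
      rw [mul_sub, h5, ← h4]
      ring
    have h4 : |Int.fract (x * (c : ℝ) ^ (N + j + p)) - Int.fract (x * (c : ℝ) ^ (N + j))| < 1 := by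
      rw [abs_lt]
      have g1 := Int.fract_nonneg (x * (c : ℝ) ^ (N + j + p))
      have g2 := Int.fract_lt_one (x * (c : ℝ) ^ (N + j + p))
      have g3 := Int.fract_nonneg (x * (c : ℝ) ^ (N + j))
      have g4 := Int.fract_lt_one (x * (c : ℝ) ^ (N + j))
      constructor <;> linarith
    rw [← h3, abs_mul, abs_of_pos (by positivity : (0 : ℝ) < (c : ℝ) ^ j)] at h4
    rw [div_lt_iff₀ hδ] at hj
    linarith
  have hcp : (1 : ℝ) < (c : ℝ) ^ p := one_lt_pow₀ hc1 (by omega)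
  have h3 : ((c : ℝ) ^ p - 1) * (c : ℝ) ^ N ≠ 0 := by
    have : (0 : ℝ) < (c : ℝ) ^ p - 1 := by linarith
    positivity
  apply hx
  refine ⟨(A : ℚ) / (((c : ℚ) ^ p - 1) * (c : ℚ) ^ N), ?_⟩
  push_cast
  rw [div_eq_iff h3, ← h2]
  ring

lemma floor_div_pow {c : ℕ} (hc : 2 ≤ c) (x : ℝ) {n e : ℕ} (he : e ≤ n) :
    ⌊x * (c : ℝ) ^ (n - e)⌋ = ⌊x * (c : ℝ) ^ n⌋ / ((c : ℤ) ^ e) := by
  have hc0 : (c : ℝ) ≠ 0 := by exact_mod_cast (by omega : c ≠ 0)
  have h1 := Int.floor_div_natCast (x * (c : ℝ) ^ n) (c ^ e)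
  push_cast at h1
  rw [← h1]
  congr 1
  rw [eq_div_iff (pow_ne_zero _ hc0), mul_assoc, ← pow_add, Nat.sub_add_cancel he]

/-- the digits in base `c` from those in base `c ^ k` -/
lemma dz_group {c k : ℕ} (hc : 2 ≤ c) (x : ℝ) {p p' : ℕ}
    (h : dz (c ^ k) x p = dz (c ^ k) x p') {s : ℕ} (hs : s < k) :
    dz c x (k * p + s) = dz c x (k * p' + s) := by
  have e1 : ∀ q : ℕ, ⌊x * (c : ℝ) ^ (k * q + s + 1)⌋
      = ⌊x * ((c ^ k : ℕ) : ℝ) ^ (q + 1)⌋ / (c : ℤ) ^ (k - 1 - s) := by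
    intro q
    have h1 := floor_div_pow hc x (n := k * (q + 1)) (e := k - 1 - s) (by
      rw [Nat.mul_add]
      omega)
    rw [show k * (q + 1) - (k - 1 - s) = k * q + s + 1 by rw [Nat.mul_add]; omega] at h1
    rw [h1, pow_mul]
    push_cast
    rfl
  have h2 : ((c ^ k : ℕ) : ℤ) ∣ ⌊x * ((c ^ k : ℕ) : ℝ) ^ (p' + 1)⌋ - ⌊x * ((c ^ k : ℕ) : ℝ) ^ (p + 1)⌋ :=
    (ZMod.intCast_eq_intCast_iff_dvd_sub _ _ _).1 h
  obtain ⟨q, hq⟩ := h2
  unfold dz
  rw [e1, e1, ZMod.intCast_eq_intCast_iff_dvd_sub]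
  have hce : (0 : ℤ) < (c : ℤ) ^ (k - 1 - s) := by positivity
  have h3 : ⌊x * ((c ^ k : ℕ) : ℝ) ^ (p' + 1)⌋
      = ⌊x * ((c ^ k : ℕ) : ℝ) ^ (p + 1)⌋ + (c : ℤ) ^ (k - 1 - s) * ((c : ℤ) ^ (s + 1) * q) := by
    have h4 : (c : ℤ) ^ (k - 1 - s) * ((c : ℤ) ^ (s + 1) * q) = ((c ^ k : ℕ) : ℤ) * q := by
      rw [← mul_assoc, ← pow_add, show k - 1 - s + (s + 1) = k by omega]
      push_cast
      ring
    rw [h4, ← hq]
    ring
  rw [h3, Int.add_mul_ediv_left _ _ hce.ne', add_sub_cancel_left, pow_succ]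
  exact Dvd.intro_left ((c : ℤ) ^ s * q) (by ring)

lemma cnt_le {c k : ℕ} (hc : 2 ≤ c) (hk : 0 < k) (x : ℝ) (n : ℕ) :
    cnt (dz c x) {i | k ∣ i} (k * n) ≤ cx (dz (c ^ k) x) n := by
  classical
  have : NeZero c := ⟨by omega⟩
  have : NeZero (c ^ k) := ⟨pow_ne_zero _ (by omega)⟩
  have h1 : bl (dz c x) (k * n) '' {i | k ∣ i} = Set.range fun i => bl (dz c x) (k * n) (k * i) := by
    ext u
    constructor
    · rintro ⟨_, ⟨i, rfl⟩, rfl⟩
      exact ⟨i, rfl⟩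
    · rintro ⟨i, rfl⟩
      exact ⟨k * i, ⟨i, rfl⟩, rfl⟩
  have h2 : (fun i => bl (dz c x) (k * n) (k * i)).FactorsThrough (fac (dz (c ^ k) x) n) := by
    intro i i' h
    funext s
    have hs := s.2
    unfold bl
    have h3 : (s : ℕ) / k < n := Nat.div_lt_of_lt_mul hs
    have h4 := congrFun h ⟨(s : ℕ) / k, h3⟩
    have h5 := dz_group hc x h4 (Nat.mod_lt (s : ℕ) hk)
    have h6 := Nat.div_add_mod (s : ℕ) k
    have e : ∀ i : ℕ, k * (i + (s : ℕ) / k) + (s : ℕ) % k = k * i + s := by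
      intro i
      rw [Nat.mul_add]
      omega
    simp only [e] at h5
    exact h5
  have h3 : Set.range (fun i => bl (dz c x) (k * n) (k * i)) =
      (Function.extend (fac (dz (c ^ k) x) n) (fun i => bl (dz c x) (k * n) (k * i))
        (fun _ => bl (dz c x) (k * n) 0)) '' Set.range (fac (dz (c ^ k) x) n) := by
    rw [← Set.range_comp]
    congr 1
    funext i
    exact (h2.extend_apply _ i).symm
  unfold cnt cx
  rw [h1, h3]
  exact Set.ncard_image_le (Set.toFinite _)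

/-- **Only finitely many powers.** -/
theorem finite_pow {c : ℕ} (hc : 2 ≤ c) {x : ℝ} (hx : Irrational x) : ∃ K, ∀ k, 0 < k →
    (∃ C : ℕ, ∀ n, complexity (digit (c ^ k) x) n ≤ n + C) → k ≤ K := by
  have : NeZero c := ⟨by omega⟩
  obtain ⟨K, hK⟩ := finite_k (np_dz hc hx)
  refine ⟨K, fun k hk h => hK k hk ?_⟩
  obtain ⟨C, hC⟩ := h
  refine ⟨C, fun n => (cnt_le hc hk x n).trans ?_⟩
  rw [← complexity_digit (le_trans hc (Nat.le_self_pow hk.ne' c))]
  exact hC n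

/-- `p(n) - n` tends to infinity or is bounded -/
lemma tends_or {b : ℕ} (hb : 2 ≤ b) {x : ℝ} (hx : Irrational x)
    (h : ¬ ∃ C : ℕ, ∀ n, complexity (digit b x) n ≤ n + C) :
    Tendsto (fun n : ℕ => (complexity (digit b x) n : ℝ) - n) atTop atTop := by
  have : NeZero b := ⟨by omega⟩
  have e : ∀ n, complexity (digit b x) n = cnt (dz b x) Set.univ n := by
    intro n
    rw [complexity_digit hb, cx, cnt, Set.image_univ]
    rfl
  push Not at h
  have hmono : ∀ n n' : ℕ, n ≤ n' → complexity (digit b x) n + n' ≤ complexity (digit b x) n' + n := by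
    intro n n' hn
    induction n', hn using Nat.le_induction with
    | base => exact le_rfl
    | succ n' hn ih =>
      have h1 := cnt_univ (np_dz hb hx) n'
      rw [← e, ← e] at h1
      omega
  rw [tendsto_atTop]
  intro B
  obtain ⟨C, hC⟩ := exists_nat_ge B
  obtain ⟨n, hn⟩ := h C
  filter_upwards [eventually_ge_atTop n] with n' hn'
  have h1 := hmono n n' hn'
  have h2 : n' + C ≤ complexity (digit b x) n' := by omega
  have h3 : ((n' + C : ℕ) : ℝ) ≤ complexity (digit b x) n' := by exact_mod_cast h2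
  push_cast at h3
  linarith

/-- the numbers multiplicatively dependent on `c` are powers of one number -/
lemma common_root {c : ℕ} (hc : 2 ≤ c) : ∃ d, 2 ≤ d ∧ ∀ b, 2 ≤ b → ¬ Indep b c → ∃ k, b = d ^ k := by
  classical
  have hex : ∃ d, 2 ≤ d ∧ ∃ j, c = d ^ j := ⟨c, hc, 1, (pow_one c).symm⟩
  set d := Nat.find hex with hd
  obtain ⟨hd2, j, hj⟩ := Nat.find_spec hex
  refine ⟨d, hd2, fun b hb hbc => ?_⟩
  unfold Indep at hbc
  push Not at hbc
  obtain ⟨k, l, hkl, hne⟩ := hbc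
  have hk : k ≠ 0 := by
    intro hk
    subst hk
    have hl := hne rfl
    rw [pow_zero] at hkl
    have := Nat.one_lt_pow hl (by omega : 1 < c)
    omega
  have h1 : d ^ (j * l) = b ^ k := by
    rw [pow_mul, hkl]
    congr 1
    exact hj.symm
  obtain ⟨r, hr1, hr2⟩ := Nat.exists_eq_pow_of_pow_eq_pow (Or.inr hk) h1
  have hr : 2 ≤ r := by
    by_contra hlt
    have : r = 0 ∨ r = 1 := by omega
    rcases this with rfl | rfl
    · rcases Nat.eq_zero_or_pos (j * l / Nat.gcd (j * l) k) with h0 | h0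
      · rw [h0, pow_zero] at hr2
        omega
      · rw [Nat.zero_pow h0] at hr2
        omega
    · rw [one_pow] at hr2
      omega
  have h2 : d ≤ r := by
    refine Nat.find_min' hex ⟨hr, (k / Nat.gcd (j * l) k) * j, ?_⟩
    rw [pow_mul, ← hr1]
    exact hj
  have h3 : k / Nat.gcd (j * l) k ≠ 0 := by
    have h4 : Nat.gcd (j * l) k ∣ k := Nat.gcd_dvd_right _ _
    have h5 := Nat.div_pos (Nat.le_of_dvd (by omega) h4) (Nat.gcd_pos_of_pos_right _ (by omega))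
    omega
  have h4 : r ≤ d := by
    rw [hr1]
    exact Nat.le_self_pow h3 r
  have h5 : r = d := le_antisymm h4 h2
  exact ⟨_, by rw [← h5]; exact hr2⟩

end Pool.Agent.TH796.Fin
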