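import Mathlib
import Pool.Agent.TH796.Fin.Fin5

set_option autoImplicit false
set_option linter.unusedSectionVars false

/-!
# Classes of multiplicatively dependent bases
-/

namespace Pool.Agent.TH796.Fin

open Filter Topology
open Pool.Agent.TH796.AL Pool.Agent.TH932.Words Pool.Agent.TH796.AL.Final
open Pool.Agent.TH796.AL.TwoB Pool.Agent.TH796.AL.Ai Pool.Agent.TH796.AL.Alg

/-- the bases multiplicatively dependent on `b` -/
def cls (b : ℕ) : Set ℕ := {d | 2 ≤ d ∧ ¬ Indep d b}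

lemma not_indep_self (b : ℕ) : ¬ Indep b b := fun h => absurd (h 1 1 rfl).1 one_ne_zero

lemma GA_cls_le {b r : ℕ} (hr : 2 ≤ r) (h : ∀ d, 2 ≤ d → ¬ Indep d b → ∃ k, d = r ^ k) :
    GA (cls b) ≤ GA {r} := by
  unfold GA
  rw [Subgroup.closure_le]
  rintro u ⟨d, ⟨hd, hdb⟩, hu⟩
  obtain ⟨k, rfl⟩ := h d hd hdb
  obtain ⟨v, hv, hv1⟩ := mem_GA hr (Set.mem_singleton r)
  have h1 : u = v ^ k := by
    apply Units.ext
    rw [hu, Units.val_pow_eq_pow_val, hv1]
    push_cast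
    rfl
  rw [h1]
  exact (GA {r}).pow_mem hv k

lemma cls_inf {b c : ℕ} (hb : 2 ≤ b) (hc : 2 ≤ c) (h : Indep b c) :
    GA (cls b) ⊓ GA (cls c) = ⊥ := by
  obtain ⟨r, hr, hrb⟩ := common_root hb
  obtain ⟨s, hs, hsc⟩ := common_root hc
  obtain ⟨i, hi⟩ := hrb b hb (not_indep_self b)
  obtain ⟨j, hj⟩ := hsc c hc (not_indep_self c)
  have hi0 : i ≠ 0 := by
    rintro rfl
    rw [pow_zero] at hi
    omega
  have hj0 : j ≠ 0 := by
    rintro rfl
    rw [pow_zero] at hj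
    omega
  have hrs : Indep r s := by
    intro k l hkl
    have h1 : b ^ (k * j) = c ^ (l * i) := by
      calc b ^ (k * j) = (r ^ k) ^ (i * j) := by
            rw [hi]
            ring
        _ = (s ^ l) ^ (i * j) := by rw [hkl]
        _ = c ^ (l * i) := by
            rw [hj]
            ring
    have h2 := h _ _ h1
    exact ⟨(Nat.mul_eq_zero.1 h2.1).resolve_right hj0, (Nat.mul_eq_zero.1 h2.2).resolve_right hi0⟩
  rw [eq_bot_iff, ← group_inf hr hs hrs]
  exact inf_le_inf (GA_cls_le hr hrb) (GA_cls_le hs hsc)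

/-- at most one exceptional class of bases -/
theorem free_cls {z : ℝ} (hz : Transcendental ℚ z) (hU : ¬ Ai.UNumber z) {S : Set ℕ}
    (hS : S.Infinite) : ∃ c : ℕ, 2 ≤ c ∧ ∀ b : ℕ, 2 ≤ b → Indep b c →
      Free (Subfield.closure (SA S (cls b))) z := by
  by_cases hex : ∃ c : ℕ, 2 ≤ c ∧ IsAlgebraic (Fl S (GA (cls c))) z
  · obtain ⟨c, hc, hcz⟩ := hex
    refine ⟨c, hc, fun b hb hbc => free_of hS (fun d hd => hd.1) fun h2 => ?_⟩
    exact meas_alg (cls_inf hb hc hbc) hS hz hU h2 hcz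
  · push Not at hex
    exact ⟨2, le_rfl, fun b hb _ => free_of hS (fun d hd => hd.1) (hex b hb)⟩

end Pool.Agent.TH796.Fin
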