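import Mathlib
import Pool.Agent.TH796.Fin.Fin5

set_option autoImplicit false
set_option linter.unusedSectionVars false

/-!
# Finitely many exceptional bases
-/

namespace Pool.Agent.TH796.Fin

open Filter Topology
open Pool.Agent.TH796.AL Pool.Agent.TH932.Words Pool.Agent.TH796.AL.Final
open Pool.Agent.TH796.AL.TwoB Pool.Agent.TH796.AL.Ai Pool.Agent.TH796.AL.Alg

theorem finitely_many {z : ℝ} (hz : Transcendental ℚ z) (hU : ¬ Ai.UNumber z) :
    ∃ c : ℕ, 2 ≤ c ∧ ∀ x : ℝ, Irrational x → AlgOver z x →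
      {b : ℕ | 2 ≤ b ∧
        ¬ Tendsto (fun n : ℕ => (complexity (digit b x) n : ℝ) - n) atTop atTop}.Finite ∧
      ∀ b : ℕ, 2 ≤ b →
        ¬ Tendsto (fun n : ℕ => (complexity (digit b x) n : ℝ) - n) atTop atTop →
        ∃ k : ℕ, b = c ^ k := by
  have hS : ({n : ℕ | 1 ≤ n} : Set ℕ).Infinite := Set.infinite_of_not_bddAbove (by
    rintro ⟨N, hN⟩
    have := hN (show N + 1 ∈ {n : ℕ | 1 ≤ n} from Nat.succ_le_succ (Nat.zero_le N))
    omega)
  obtain ⟨c1, hc1, h⟩ := free_exceptional hz hU hS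
  obtain ⟨c, hc, hroot⟩ := common_root hc1
  refine ⟨c, hc, fun x hx hxz => ?_⟩
  have key : ∀ b : ℕ, 2 ≤ b →
      ¬ Tendsto (fun n : ℕ => (complexity (digit b x) n : ℝ) - n) atTop atTop →
      (∃ C : ℕ, ∀ n, complexity (digit b x) n ≤ n + C) ∧ ∃ k : ℕ, b = c ^ k := by
    intro b hb hnt
    have h1 : ∃ C : ℕ, ∀ n, complexity (digit b x) n ≤ n + C := by
      by_contra hcon
      exact hnt (tends_or hb hx hcon)
    refine ⟨h1, hroot b hb fun hind => ?_⟩
    obtain ⟨C, hC⟩ := h1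
    refine (h b hb hind).2 x hx hxz (Subfield.subset_closure ⟨b, rfl, (C : ℝ) + 1, fun n hn => ?_⟩)
    have hn1 : (1 : ℝ) ≤ n := by
      have : 1 ≤ n := hn
      exact_mod_cast this
    have h2 : (complexity (digit b x) n : ℝ) ≤ n + C := by exact_mod_cast hC n
    have h3 : (C : ℝ) ≤ C * n := by
      have : (0 : ℝ) ≤ C := Nat.cast_nonneg C
      nlinarith
    linarith
  refine ⟨?_, fun b hb hnt => (key b hb hnt).2⟩
  obtain ⟨K, hK⟩ := finite_pow hc hx
  refine ((Set.finite_Iic K).image fun k => c ^ k).subset ?_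
  rintro b ⟨hb, hnt⟩
  obtain ⟨h1, k, rfl⟩ := key b hb hnt
  have hk : 0 < k := by
    rcases Nat.eq_zero_or_pos k with rfl | h0
    · rw [pow_zero] at hb
      omega
    · exact h0
  exact ⟨k, hK k hk h1, rfl⟩

end Pool.Agent.TH796.Fin
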