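import Mathlib
import Pool.Agent.TH796.Fin.Fin6

set_option autoImplicit false
set_option linter.unusedSectionVars false

/-!
# The groupings of low complexity
-/

namespace Pool.Agent.TH796.Fin

open Set

section words
variable {α : Type} [Finite α]

lemma cnt_le_succ {w : ℕ → α} {m : ℕ} (hc : cnt w univ (m + 1) ≤ cnt w univ m + 1) (A : Set ℕ) :
    cnt w A (m + 1) ≤ cnt w A m + 1 := by
  classical
  set S := bl w (m + 1) '' A with hS
  have hSU : S ⊆ bl w (m + 1) '' univ := image_mono (subset_univ A)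
  have hm : cnt w A m = (rs '' S).ncard := by
    unfold cnt
    rw [hS, rs_image]
  have hm1 : cnt w A (m + 1) = S.ncard := rfl
  rw [hm, hm1]
  unfold cnt at hc
  rw [← rs_image w univ m] at hc
  by_cases hinj : InjOn (rs : (Fin (m + 1) → α) → (Fin m → α)) S
  · rw [hinj.ncard_image]
    omega
  · unfold InjOn at hinj
    push Not at hinj
    obtain ⟨x, hx, y, hy, hxy, hne⟩ := hinj
    have h1 : InjOn (rs : (Fin (m + 1) → α) → (Fin m → α)) (S \ {x}) := by
      intro u hu v hv huv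
      by_contra hne'
      rcases ncard_uniq rs (toFinite _) hc (hSU hx) (hSU hy) hne hxy (hSU hu.1) (hSU hv.1) hne'
        huv with ⟨h2, -⟩ | ⟨-, h2⟩
      · exact hu.2 h2
      · exact hv.2 h2
    have h2 : (rs '' (S \ {x})).ncard = (S \ {x}).ncard := h1.ncard_image
    have h3 : (rs '' (S \ {x})).ncard ≤ (rs '' S).ncard :=
      ncard_le_ncard (image_mono (fun _ h => h.1)) (toFinite _)
    have h4 := ncard_diff_singleton_add_one hx (toFinite S)
    omega

lemma cnt_stay {w : ℕ → α} {m : ℕ} {A : Set ℕ}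
    (h : ∀ i ∈ A, ∀ j ∈ A, bl w m i = bl w m j → w (i + m) = w (j + m)) :
    cnt w A (m + 1) ≤ cnt w A m := by
  set S := bl w (m + 1) '' A with hS
  have hm : cnt w A m = (rs '' S).ncard := by
    unfold cnt
    rw [hS, rs_image]
  have hm1 : cnt w A (m + 1) = S.ncard := rfl
  have hinj : InjOn (rs : (Fin (m + 1) → α) → (Fin m → α)) S := by
    rintro _ ⟨i, hi, rfl⟩ _ ⟨j, hj, rfl⟩ hij
    rw [rs_bl, rs_bl] at hij
    exact bl_succ.2 ⟨hij, h i hi j hj hij⟩
  rw [hm, hm1, hinj.ncard_image]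

namespace Str

variable {w : ℕ → α} {m0 : ℕ} {a b : α}

lemma mono (S : Str w m0 a b) {m1 : ℕ} (h : m0 ≤ m1) : Str w m1 a b :=
  ⟨S.np, S.ne, fun m hm => S.un m (h.trans hm), fun t ht => S.let' t (T_antitone h ht), S.rec'⟩

lemma same_res (S : Str w m0 a b) {k : ℕ} (hdiv : ∀ t ∈ T w m0, k ∣ nx w m0 t) :
    ∀ t ∈ T w m0, ∀ u ∈ T w m0, t % k = u % k := by
  have key : ∀ s0 ∈ T w m0, ∀ t, t ∈ T w m0 → s0 ≤ t → t % k = s0 % k := by
    intro s0 hs0 t
    induction t using Nat.strong_induction_on with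
    | _ t ih =>
      intro ht h
      rcases Nat.eq_or_lt_of_le h with h1 | h1
      · rw [h1]
      · obtain ⟨s, hs, h2, h3, h4⟩ := S.pred hs0 h1 ht
        rw [← ih s h3 hs h2, ← h4]
        obtain ⟨q, hq⟩ := hdiv s hs
        rw [hq, Nat.add_mul_mod_self_left]
  intro t ht u hu
  rcases le_total t u with h | h
  · exact (key t ht u hu h).symm
  · exact key u hu t ht h

lemma conv (S : Str w m0 a b) (hone : ∀ m ≥ m0, cnt w univ (m + 1) ≤ cnt w univ m + 1) {k : ℕ}
    (hk0 : 0 < k) (hdiv : ∀ t ∈ T w m0, k ∣ nx w m0 t) : Hk w k := by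
  obtain ⟨t0, -, ht0⟩ := T_inf S.np m0 0
  set e := t0 % k with he
  have hek : e < k := Nat.mod_lt _ hk0
  have hstay : ∀ m ≥ m0, m % k ≠ e → cnt w {i | k ∣ i} (m + 1) ≤ cnt w {i | k ∣ i} m := by
    intro m hm hme
    refine cnt_stay fun i hi j hj hij => ?_
    by_contra hne
    apply hme
    have h1 : i + m ∈ T w m := ⟨j + m, eqv_iff.2 ⟨by omega, by omega, by
      rw [Nat.add_sub_cancel, Nat.add_sub_cancel]
      exact hij⟩, fun h => hne h.symm⟩
    have h2 := S.same_res hdiv (i + m) (T_antitone hm h1) t0 ht0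
    obtain ⟨q, rfl⟩ := hi
    rw [Nat.mul_add_mod] at h2
    exact h2
  have hstep : ∀ q, m0 ≤ k * q → ∀ s ≤ k, cnt w {i | k ∣ i} (k * q + s)
      ≤ cnt w {i | k ∣ i} (k * q) + (if s ≤ e then 0 else 1) := by
    intro q hq s
    induction s with
    | zero => intro _; simp
    | succ s ih =>
      intro hs
      have h1 := ih (by omega)
      have h2 : (k * q + s) % k = s := by rw [Nat.mul_add_mod, Nat.mod_eq_of_lt (by omega)]
      rw [show k * q + (s + 1) = k * q + s + 1 by ring]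
      by_cases hse : s = e
      · have h3 := cnt_le_succ (hone (k * q + s) (by omega)) {i | k ∣ i}
        rw [if_pos (by omega)] at h1
        rw [if_neg (by omega)]
        omega
      · have h3 := hstay (k * q + s) (by omega) (by rw [h2]; exact hse)
        by_cases hle : s ≤ e
        · rw [if_pos hle] at h1
          rw [if_pos (by omega)]
          omega
        · rw [if_neg hle] at h1
          rw [if_neg (by omega)]
          omega
  have hj : ∀ j, cnt w {i | k ∣ i} (k * (m0 + j)) ≤ cnt w {i | k ∣ i} (k * m0) + j := by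
    intro j
    induction j with
    | zero => exact le_rfl
    | succ j ih =>
      have h1 := hstep (m0 + j) (by nlinarith) k le_rfl
      rw [if_neg (by omega)] at h1
      rw [show k * (m0 + (j + 1)) = k * (m0 + j) + k by ring]
      omega
  refine ⟨cnt w {i | k ∣ i} (k * m0), fun n => ?_⟩
  rcases le_total m0 n with h | h
  · have h1 := hj (n - m0)
    rw [show m0 + (n - m0) = n by omega] at h1
    omega
  · have h1 := cnt_mono w {i | k ∣ i} (Nat.mul_le_mul_left k h)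
    omega

end Str

/-- **The groupings of low complexity are those into blocks of length `k`, `k ∣ g`.** -/
theorem groups {w : ℕ → α} (hw : NP w) :
    (∀ k, 0 < k → ¬ Hk w k) ∨ ∃ g, 0 < g ∧ ∀ k, 0 < k → (Hk w k ↔ k ∣ g) := by
  by_cases hex : ∃ k, 0 < k ∧ Hk w k
  · obtain ⟨k0, hk0, hk⟩ := hex
    obtain ⟨C, hC⟩ := cnt_of_Hk hk0 hk
    obtain ⟨m1, a, b, S1⟩ := exists_str hw hC
    obtain ⟨m2, hone⟩ := ev_one hw hC
    have S := S1.mono (le_max_left m1 m2)
    have hone' : ∀ m ≥ max m1 m2, cnt w univ (m + 1) ≤ cnt w univ m + 1 := fun m hm =>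
      hone m ((le_max_right m1 m2).trans hm)
    obtain ⟨ta, -, hta, haa⟩ := S.exists_a le_rfl 0
    obtain ⟨tb, -, htb, hbb⟩ := S.exists_b le_rfl 0
    refine Or.inr ⟨Nat.gcd (nx w (max m1 m2) ta) (nx w (max m1 m2) tb),
      Nat.gcd_pos_of_pos_left _ (nx_mem hw _ ta).1, fun k hk0 => ⟨fun hk => ?_, fun hk => ?_⟩⟩
    · exact Nat.dvd_gcd (S.divis hk0 hk ta hta) (S.divis hk0 hk tb htb)
    · refine S.conv hone' hk0 fun t ht => ?_
      rcases S.letter le_rfl ht with h | h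
      · rw [S.nx_congr le_rfl ht hta (h.trans haa.symm)]
        exact hk.trans (Nat.gcd_dvd_left _ _)
      · rw [S.nx_congr le_rfl ht htb (h.trans hbb.symm)]
        exact hk.trans (Nat.gcd_dvd_right _ _)
  · push Not at hex
    exact Or.inl hex

end words

open Filter Topology
open Pool.Agent.TH796.AL Pool.Agent.TH932.Words Pool.Agent.TH796.AL.Final
open Pool.Agent.TH796.AL.TwoB Pool.Agent.TH796.AL.Ai Pool.Agent.TH796.AL.Alg

/-- the digits in base `c ^ k` from those in base `c` -/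
lemma dz_ungroup {c k : ℕ} (hc : 2 ≤ c) (x : ℝ) {p p' : ℕ}
    (h : ∀ s < k, dz c x (k * p + s) = dz c x (k * p' + s)) :
    dz (c ^ k) x p = dz (c ^ k) x p' := by
  have h1 : ∀ s ≤ k, ⌊x * (c : ℝ) ^ (k * p' + s)⌋ - ⌊x * (c : ℝ) ^ (k * p + s)⌋
      = (c : ℤ) ^ s * (⌊x * (c : ℝ) ^ (k * p')⌋ - ⌊x * (c : ℝ) ^ (k * p)⌋) := by
    intro s
    induction s with
    | zero => intro _; simp
    | succ s ih =>
      intro hs
      have h2 := ih (by omega)
      rw [show k * p' + (s + 1) = k * p' + s + 1 by ring, show k * p + (s + 1) = k * p + s + 1 by ring,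
        floor_rec hc, floor_rec hc, h s (by omega), pow_succ]
      linear_combination (c : ℤ) * h2
  have h2 := h1 k le_rfl
  have e : ∀ q : ℕ, x * ((c ^ k : ℕ) : ℝ) ^ (q + 1) = x * (c : ℝ) ^ (k * q + k) := by
    intro q
    push_cast
    rw [← pow_mul]
    rfl
  unfold dz
  rw [ZMod.intCast_eq_intCast_iff_dvd_sub, e, e, h2]
  push_cast
  exact Dvd.intro _ rfl

lemma le_cnt {c k : ℕ} (hc : 2 ≤ c) (hk : 0 < k) (x : ℝ) (n : ℕ) :
    cx (dz (c ^ k) x) n ≤ cnt (dz c x) {i | k ∣ i} (k * n) := by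
  classical
  have : NeZero c := ⟨by omega⟩
  have : NeZero (c ^ k) := ⟨pow_ne_zero _ (by omega)⟩
  have h1 : bl (dz c x) (k * n) '' {i | k ∣ i} = Set.range fun i => bl (dz c x) (k * n) (k * i) := by
    ext u
    constructor
    · rintro ⟨_, ⟨i, rfl⟩, rfl⟩
      exact ⟨i, rfl⟩
    · rintro ⟨i, rfl⟩
      exact ⟨k * i, ⟨i, rfl⟩, rfl⟩
  have h2 : (fac (dz (c ^ k) x) n).FactorsThrough (fun i => bl (dz c x) (k * n) (k * i)) := by
    intro i i' h
    funext j
    have hj := j.2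
    refine dz_ungroup hc x fun s hs => ?_
    have h3 : k * (j : ℕ) + s < k * n := by
      have : k * ((j : ℕ) + 1) ≤ k * n := Nat.mul_le_mul_left k hj
      rw [Nat.mul_add, Nat.mul_one] at this
      omega
    have h4 := congrFun h ⟨k * (j : ℕ) + s, h3⟩
    unfold bl at h4
    simp only at h4
    rw [show k * (i + (j : ℕ)) + s = k * i + (k * (j : ℕ) + s) by ring,
      show k * (i' + (j : ℕ)) + s = k * i' + (k * (j : ℕ) + s) by ring]
    exact h4
  have h3 : Set.range (fac (dz (c ^ k) x) n) =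
      (Function.extend (fun i => bl (dz c x) (k * n) (k * i)) (fac (dz (c ^ k) x) n)
        (fun _ => fac (dz (c ^ k) x) n 0)) '' Set.range (fun i => bl (dz c x) (k * n) (k * i)) := by
    rw [← Set.range_comp]
    congr 1
    funext i
    exact (h2.extend_apply _ i).symm
  unfold cnt cx
  rw [h1, h3]
  exact Set.ncard_image_le (Set.toFinite _)

lemma hk_iff {c k : ℕ} (hc : 2 ≤ c) (hk : 0 < k) (x : ℝ) :
    Hk (dz c x) k ↔ ∃ C : ℕ, ∀ n, complexity (digit (c ^ k) x) n ≤ n + C := by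
  have e : ∀ n, complexity (digit (c ^ k) x) n = cx (dz (c ^ k) x) n := fun n =>
    complexity_digit (le_trans hc (Nat.le_self_pow hk.ne' c)) x n
  constructor
  · rintro ⟨C, hC⟩
    exact ⟨C, fun n => by rw [e]; exact (le_cnt hc hk x n).trans (hC n)⟩
  · rintro ⟨C, hC⟩
    exact ⟨C, fun n => (cnt_le hc hk x n).trans (by rw [← e]; exact hC n)⟩

/-- bounded means not tending to infinity -/
lemma not_tends {b : ℕ} {x : ℝ} (h : ∃ C : ℕ, ∀ n, complexity (digit b x) n ≤ n + C) :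
    ¬ Tendsto (fun n : ℕ => (complexity (digit b x) n : ℝ) - n) atTop atTop := by
  obtain ⟨C, hC⟩ := h
  intro ht
  obtain ⟨n, hn⟩ := (ht.eventually (eventually_gt_atTop (C : ℝ))).exists
  have h1 : (complexity (digit b x) n : ℝ) ≤ n + C := by exact_mod_cast hC n
  linarith

/-- the exceptional bases, if they are powers of `c` -/
theorem struct_of {c : ℕ} (hc : 2 ≤ c) {x : ℝ} (hx : Irrational x)
    (h : ∀ b : ℕ, 2 ≤ b →
      ¬ Tendsto (fun n : ℕ => (complexity (digit b x) n : ℝ) - n) atTop atTop →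
      ∃ k : ℕ, b = c ^ k) :
    (∀ b : ℕ, 2 ≤ b → Tendsto (fun n : ℕ => (complexity (digit b x) n : ℝ) - n) atTop atTop) ∨
      ∃ K : ℕ, 0 < K ∧ ∀ b : ℕ, 2 ≤ b →
        (¬ Tendsto (fun n : ℕ => (complexity (digit b x) n : ℝ) - n) atTop atTop ↔
          ∃ k : ℕ, k ∣ K ∧ b = c ^ k) := by
  have : NeZero c := ⟨by omega⟩
  have hpow : ∀ {b : ℕ}, 2 ≤ b →
      ¬ Tendsto (fun n : ℕ => (complexity (digit b x) n : ℝ) - n) atTop atTop →
      ∃ k, 0 < k ∧ b = c ^ k ∧ Hk (dz c x) k := by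
    intro b hb hnt
    obtain ⟨k, rfl⟩ := h b hb hnt
    have hk : 0 < k := by
      rcases Nat.eq_zero_or_pos k with rfl | h0
      · rw [pow_zero] at hb
        omega
      · exact h0
    refine ⟨k, hk, rfl, (hk_iff hc hk x).2 ?_⟩
    by_contra hcon
    exact hnt (tends_or hb hx hcon)
  rcases groups (np_dz hc hx) with h1 | ⟨K, hK, h1⟩
  · left
    intro b hb
    by_contra hnt
    obtain ⟨k, hk, -, h2⟩ := hpow hb hnt
    exact h1 k hk h2
  · right
    refine ⟨K, hK, fun b hb => ⟨fun hnt => ?_, fun hk => ?_⟩⟩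
    · obtain ⟨k, hk, h3, h2⟩ := hpow hb hnt
      exact ⟨k, (h1 k hk).1 h2, h3⟩
    · obtain ⟨k, hkK, rfl⟩ := hk
      have hk : 0 < k := Nat.pos_of_dvd_of_pos hkK hK
      exact not_tends ((hk_iff hc hk x).1 ((h1 k hk).2 hkK))

/-- **The exceptional bases.** -/
theorem exceptional_bases {z : ℝ} (hz : Transcendental ℚ z) (hU : ¬ Ai.UNumber z) :
    ∃ c : ℕ, 2 ≤ c ∧ ∀ x : ℝ, Irrational x → AlgOver z x →
      (∀ b : ℕ, 2 ≤ b → Tendsto (fun n : ℕ => (complexity (digit b x) n : ℝ) - n) atTop atTop) ∨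
      ∃ K : ℕ, 0 < K ∧ ∀ b : ℕ, 2 ≤ b →
        (¬ Tendsto (fun n : ℕ => (complexity (digit b x) n : ℝ) - n) atTop atTop ↔
          ∃ k : ℕ, k ∣ K ∧ b = c ^ k) := by
  obtain ⟨c, hc, h⟩ := finitely_many hz hU
  exact ⟨c, hc, fun x hx hxz => struct_of hc hx fun b hb hnt => (h x hx hxz).2 b hb hnt⟩

/-- the exceptional bases of a number which is not a Liouville number -/
theorem exceptional_bases' {x : ℝ} (hx : Irrational x) (hL : ¬ Liouville x) :
    ∃ c : ℕ, 2 ≤ c ∧
      ((∀ b : ℕ, 2 ≤ b → Tendsto (fun n : ℕ => (complexity (digit b x) n : ℝ) - n) atTop atTop) ∨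
      ∃ K : ℕ, 0 < K ∧ ∀ b : ℕ, 2 ≤ b →
        (¬ Tendsto (fun n : ℕ => (complexity (digit b x) n : ℝ) - n) atTop atTop ↔
          ∃ k : ℕ, k ∣ K ∧ b = c ^ k)) := by
  by_cases hex : ∃ b0 : ℕ, 2 ≤ b0 ∧
      ¬ Tendsto (fun n : ℕ => (complexity (digit b0 x) n : ℝ) - n) atTop atTop
  · obtain ⟨b0, hb0, hnt0⟩ := hex
    obtain ⟨c, hc, hroot⟩ := common_root hb0
    refine ⟨c, hc, struct_of hc hx fun b hb hnt => hroot b hb fun hind => ?_⟩
    obtain ⟨C0, hC0⟩ : ∃ C : ℕ, ∀ n, complexity (digit b0 x) n ≤ n + C := by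
      by_contra hcon
      exact hnt0 (tends_or hb0 hx hcon)
    obtain ⟨C, hC⟩ : ∃ C : ℕ, ∀ n, complexity (digit b x) n ≤ n + C := by
      by_contra hcon
      exact hnt (tends_or hb hx hcon)
    obtain ⟨n0, hn0⟩ := digits_two hb hb0 hind hx hL ((C : ℝ) + C0 + 1)
    have hn1 : (1 : ℝ) ≤ ((n0 + 1 : ℕ) : ℝ) := by
      push_cast
      have : (0 : ℝ) ≤ n0 := Nat.cast_nonneg n0
      linarith
    have hCC : (0 : ℝ) ≤ (C : ℝ) + C0 := by positivity
    have h3 : (C : ℝ) + C0 ≤ ((C : ℝ) + C0) * ((n0 + 1 : ℕ) : ℝ) := le_mul_of_one_le_right hCC hn1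
    have hC1 : (0 : ℝ) ≤ C := Nat.cast_nonneg C
    have hC2 : (0 : ℝ) ≤ C0 := Nat.cast_nonneg C0
    rcases hn0 (n0 + 1) (Nat.le_succ n0) with h1 | h1
    · have h2 : (complexity (digit b x) (n0 + 1) : ℝ) ≤ ((n0 + 1 : ℕ) : ℝ) + C := by
        exact_mod_cast hC (n0 + 1)
      nlinarith
    · have h2 : (complexity (digit b0 x) (n0 + 1) : ℝ) ≤ ((n0 + 1 : ℕ) : ℝ) + C0 := by
        exact_mod_cast hC0 (n0 + 1)
      nlinarith
  · push Not at hex
    exact ⟨2, le_rfl, Or.inl hex⟩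

end Pool.Agent.TH796.Fin
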